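import Mathlib
import Pool.Agent.Q236.CR.Stm
import Pool.Agent.Q95.KS.Tup

/-!
# Project BW (helper88): the theorem of Bombieri and Vinogradov in almost all windows of length `x^{1/2}`

Goals: (1) MP_e94e4b_nt: for ALMOST ALL `N` there are many `k` with `N² + k + 1` prime and `(N+1)² - k` almost
prime (the starting result: a positive proportion of the `N`); (2) MP_5f6ee5_nt: bounded gaps between primes in
almost all intervals between consecutive odd squares; (3) a library theorem: primes in progressions to all moduli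
`≤ x^{1/100}` in almost all windows of length `x^{1/2 - 0.004}` (`S_BVG`).

Every statement is a `Prop` with a complete proof in its docstring; nothing is optimised, constants `C` may be
changed freely inside the proofs. `Y` is the logarithm of the main parameter. Factors, tents and frequencies are
those of project KS (`Pool.Agent.Q240.KS`, all integers frequencies `k`, `ch k (log n) = n^{-ik}`), now with a
Dirichlet character.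

Besides the statements of this file the six statements `S_TNB`, `S_ZSB`, `S_CHR`, `S_LUP`, `S_LZF`, `S_MOC` of
`Pool/Agent/Q236/CR/Stm.lean` (with proofs there) are needed: Vinogradov-Korobov for characters to moduli
`≤ (log x)^B`. Done there: `Pool.Agent.Q53.CR.shb : S_SHB`, `Pool.Agent.Q53.CR.sdb : S_SDB`.
-/

set_option autoImplicit false

namespace Pool.Agent.L7h88.BW

open Finset Filter MeasureTheory
open Pool.Agent.H376R2.MR (ch DP FK w)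
open Pool.Agent.Q240.KS (cf sp ty ed DY zY pic)
open Pool.Agent.Q95.KS (aY)
open Pool.Agent.Q236.CR (nt)

/-! ### definitions -/

/-- the factors of project KS with a character: `∑ cf(n) χ(n) n^{-ik}` -/
noncomputable def PX {q : ℕ} (χ : DirichletCharacter ℂ q) (z : ℕ) (t : Fin 3) (d : ℕ) (k : ℤ) : ℂ :=
  ∑ n ∈ sp d, ((cf z t d n : ℝ) : ℂ) * χ (n : ZMod q) * ch k (Real.log n)

/-- the Dirichlet polynomial of `χ Λ` near `e^Y` -/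
noncomputable def AX {q : ℕ} (χ : DirichletCharacter ℂ q) (Y : ℝ) (k : ℤ) : ℂ :=
  ∑ d ∈ DY Y, (ed d : ℂ) * ∏ i, PX χ (zY Y) (ty i) (d i) k

/-- the number of frequencies, `e^{0.505 Y}` -/
noncomputable def Kc (Y : ℝ) : ℕ := ⌊Real.exp (0.505 * Y)⌋₊

/-- the level, `e^{Y/100}` -/
noncomputable def Fc (Y : ℝ) : ℕ := ⌊Real.exp (Y / 100)⌋₊

/-- all factors of relative length between `0.09` and `0.45` are small at all frequencies -/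
def Good (Y : ℝ) (B0 : ℕ) {f : ℕ} (χ : DirichletCharacter ℂ f) : Prop :=
  ∀ (t : Fin 3) (d : ℕ) (k : ℤ), 0.09 * Y ≤ (d : ℝ) / 20 → (d : ℝ) / 20 ≤ 0.45 * Y → |(k : ℝ)| ≤ Kc Y →
    ‖PX χ (zY Y) t d k‖ ≤ 1 / Y ^ B0

open Classical in
/-- the primitive characters modulo `f` with the property `P` -/
noncomputable def prm (f : ℕ) (P : DirichletCharacter ℂ f → Prop) : Finset (DirichletCharacter ℂ f) :=
  (univ : Finset (DirichletCharacter ℂ f)).filter (fun χ => χ.IsPrimitive ∧ P χ)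

/-- `∑ Λ(n) χ(n) / n` over the window `e^u < n ≤ e^{u+κ}` -/
noncomputable def Wn {q : ℕ} (χ : DirichletCharacter ℂ q) (κ u : ℝ) : ℂ :=
  ∑ n ∈ (Icc 1 ⌊Real.exp (u + κ)⌋₊).filter (fun n : ℕ => u < Real.log n),
    ((ArithmeticFunction.vonMangoldt n / n : ℝ) : ℂ) * χ (n : ZMod q)

/-- `∑ log p` over the primes `p ≡ a (mod q)` of the window `e^u < p ≤ e^{u+κ}` -/
noncomputable def th (u κ : ℝ) (q a : ℕ) : ℝ :=
  ∑ p ∈ (Icc 1 ⌊Real.exp (u + κ)⌋₊).filter (fun p : ℕ => p.Prime ∧ u < Real.log p ∧ p ≡ a [MOD q]), Real.log p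

/-! ### Moebius factors -/

/-- **LOWM** (Siegel-Walfisz for `μ χ` at low heights). Proof: `Pool.Agent.H373R2.T7.mu_ap B U`
(`Pool/Agent/H373R2/T7/SupMu.lean`): for large `N`, all `q ≤ (log N)^B`, all classes `c` and all `y ≤ N` the sum of
`μ(n)` over `n ≤ y`, `n ≡ c (mod q)` is at most `N / (log N)^U`. Multiply by `χ(c)` and add over `c`: for all `y ≤ N`,
`|∑_{n ≤ y} μ(n) χ(n)| ≤ q N / (log N)^U ≤ N / (log N)^{U - B}`. Partial summation with `n^{-iτ}`: the variation on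
`[1, N]` is `≤ |τ| ∑ 1/n ≤ |τ| (1 + log N)`, so the sum is `≤ (1 + |τ| (1 + log N)) N / (log N)^{U-B}`; take
`U = B + C₀ + K + 2`. For small `N` the trivial bound `N` and a large `C` (as `log N ≥ log 2`). -/
def S_LOWM : Prop := ∀ B C₀ K : ℕ, ∃ C : ℝ, ∀ (N : ℕ) (q : ℕ) (_ : NeZero q)
  (χ : DirichletCharacter ℂ q) (τ : ℝ), 2 ≤ N → (q : ℝ) ≤ Real.log N ^ B → |τ| ≤ Real.log N ^ C₀ →
  ‖∑ n ∈ Finset.Icc 1 N, ((ArithmeticFunction.moebius n : ℤ) : ℂ) * (χ (n : ZMod q) * nt τ n)‖ ≤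
    C * N / (Real.log N) ^ K

/-- **MBX** (`S_MOC → S_LOWM → S_MBX`; adapt `Pool/Agent/Q298/KS/Mb.lean`). Proof. Apply `S_MOC` with `(2A+2, B+1, B0+1)`, let
`C₀` be its exponent, and `S_LOWM` with `(B+1, C₀, B0+1)`: for every `N ≥ 2` with `q ≤ (log N)^{B+1}` and `|k| ≤ N^{2A+2}` the sum
`∑_{n ≤ N} μ(n) χ(n) n^{-ik}` is at most `C N / (log N)^{B0+1}` (`S_LOWM` if `|k| ≤ (log N)^{C₀}`, `S_MOC` otherwise). For
`d ≥ d₀` and `e^{(d-1)/20} ≤ x ≤ e^{(d+1)/20}` the integer `N = ⌊x⌋` satisfies `N ≥ e^{d/40}`, `log N ≥ d/40 ≥ (1 + d)^{B/(B+1)}`, so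
`(1+d)^B ≤ (log N)^{B+1}` and `e^{A d/20} ≤ N^{2A+2}`. Abel summation with the weight `w (20 log n - d) / n`, cut at
`min (z, e^{(d+1)/20})`, of maximum and total variation `≤ C e^{-d/20}`. For `d < d₀` the trivial bound `‖PX‖ ≤ 2` and a
large `C`. -/
def S_MBX : Prop := ∀ A B B0 : ℕ, ∃ C : ℝ, ∀ (q : ℕ) (_ : NeZero q) (χ : DirichletCharacter ℂ q) (z d : ℕ) (k : ℤ),
  (q : ℝ) ≤ (1 + (d : ℝ)) ^ B → |(k : ℝ)| ≤ Real.exp (A * d / 20) → ‖PX χ z 0 d k‖ ≤ C / (1 + (d : ℝ)) ^ B0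

/-! ### smooth factors -/

/-- **SMA** (nonprincipal characters, small height). Proof. `|∑_{m < n ≤ m'} χ(n)| ≤ q` for all `m ≤ m'` (a sum over `q`
consecutive integers is `0`). Let `f(n) = cf z t d n · ch k (log n)` for `n ≥ 1`, `t ≠ 0`: `f` is `g(log n)` with
`g(s) = (1 or s) w(20 s - d) e^{-s} e^{-iks}`, so `|f| ≤ 3 (1 + d) e^{-d/20}` and the total variation of `f` over the integers
`n ≥ 1` is at most `∫ |g'| ≤ C (1 + |k|) (1 + d) e^{-d/20}` (`g` is Lipschitz with constant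
`≤ (25 + |k|) (2 + d) e^{-(d-1)/20}`, supported in an interval of length `1/10`; and `∑ |f(n+1) - f(n)| ≤ Lip · (total length)`
restricted to consecutive pairs that meet the support; the sum of `log(n+1) - log n` over these pairs is `≤ 1/10 + 2 log 2`).
Abel summation. -/
def S_SMA : Prop := ∃ C : ℝ, 1 ≤ C ∧ ∀ (q : ℕ) (_ : NeZero q) (χ : DirichletCharacter ℂ q) (z : ℕ) (t : Fin 3)
  (d : ℕ) (k : ℤ), χ ≠ 1 → t ≠ 0 → ‖PX χ z t d k‖ ≤ C * q * (1 + |(k : ℝ)|) * (1 + d) * Real.exp (-((d : ℝ) / 20))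

/-- **SMB** (`Pool.Agent.Q236.CR.S_CHR → S_SMB`; adapt `Pool/Agent/Q298/KS/Sb2.lean`, which is the case without `χ`). Proof:
second part of `S_CHR` (for `M < M' ≤ 2M`, `|∑_{M < n ≤ M'} χ(n) n^{-ik}| ≤ q C (|k|^{1/2} + M |k|^{-1/2})(1 + log M)`) and Abel
summation as there. -/
def S_SMB : Prop := ∃ C : ℝ, 1 ≤ C ∧ ∀ (q : ℕ) (_ : NeZero q) (χ : DirichletCharacter ℂ q) (z : ℕ) (t : Fin 3)
  (d : ℕ) (k : ℤ), t ≠ 0 → k ≠ 0 → ‖PX χ z t d k‖ ≤ C * q * (1 + (d : ℝ)) ^ 2 *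
    (|(k : ℝ)| ^ (1 / 2 : ℝ) * Real.exp (-((d : ℝ) / 20)) + |(k : ℝ)| ^ (-(1 / 2) : ℝ))

/-- **SMC** (`Pool.Agent.Q236.CR.S_CHR → S_SMB → S_SMC`): all polynomial heights. Proof. If `|k| ≤ e^{d/20}` use SMB:
`|k|^{1/2} e^{-d/20} ≤ e^{-d/40}`. If `e^{(d+1)/20} ≥ |k| > e^{d/20}` SMB gives the same up to a constant. If
`e^{(d+1)/20} < |k| ≤ e^{M d/20}`: for `N` in `[e^{(d-1)/20}/2, e^{(d+1)/20}]` (`d ≥ 100`) `κ = log |k| / log N` lies in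
`[1, 2 M]`, so the first part of `S_CHR` gives `|∑_{N < n ≤ N'} χ(n) n^{-ik}| ≤ q C' N^{1 - c/(1+2M)²}` with a constant
`C'` depending on `M`; Abel summation as in SMB. `d < 100`: trivial bound `2 (1 + d)`. -/
def S_SMC : Prop := ∀ M : ℕ, ∃ C η : ℝ, 1 ≤ C ∧ 0 < η ∧ η ≤ 1 / 2 ∧ ∀ (q : ℕ) (_ : NeZero q)
  (χ : DirichletCharacter ℂ q) (z : ℕ) (t : Fin 3) (d : ℕ) (k : ℤ), t ≠ 0 → k ≠ 0 →
  |(k : ℝ)| ≤ Real.exp (M * d / 20) →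
  ‖PX χ z t d k‖ ≤ C * q * (1 + (d : ℝ)) ^ 2 * (|(k : ℝ)| ^ (-(1 / 2) : ℝ) + Real.exp (-(η * d / 20)))

/-- **SML** (`S_SMA → S_SMC → S_MBX → S_SML`): characters to small moduli are good. Proof. `d/20 ∈ [0.09 Y, 0.45 Y]`,
`|k| ≤ e^{0.505 Y} ≤ e^{6 d/20}`, `q ≤ Y^B ≤ (1 + d)^B` (`d ≥ 1.8 Y`). `t = 0`: MBX with `(6, B, B0 + 1)`. `t ≠ 0`: if
`|k| ≤ e^{0.01 Y}` then SMA gives `≤ C Y^B (2 e^{0.01 Y}) (1 + 9 Y) e^{-0.09 Y}`; otherwise SMC with `M = 6` gives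
`≤ C Y^B (1 + 9 Y)² (e^{-0.005 Y} + e^{-0.09 η Y})`. Both are `≤ Y^{-B0}` for large `Y`. -/
def S_SML : Prop := ∀ B B0 : ℕ, ∃ Y₀ : ℝ, ∀ Y : ℝ, Y₀ ≤ Y → ∀ (q : ℕ) (_ : NeZero q) (χ : DirichletCharacter ℂ q),
  (q : ℝ) ≤ Y ^ B → χ ≠ 1 → Good Y B0 χ

/-! ### products of factors, the large sieve -/

/-- **PRDX** (adapt `Lf_mul`, `Lf_prod`, `prod_bound`, `supp_prod` of `Pool/Agent/Q95/KS/TupA.lean`, `Tup.lean`: replace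
`ch k (log n)` by `χ(n) ch k (log n)`, which is again completely multiplicative; `b` is the product of the ten arithmetic
functions `af z (tt i) (d i)`). The bound: `|cf z t d m| ≤ (1 + d) / m` for `m ≥ 1` (on the support `log m ≤ (d+1)/20`), and
`prod_bound` with `c i = 1 + d i ≤ 1 + ∑ d`. -/
def S_PRDX : Prop := ∀ (z : ℕ) (tt : Fin 10 → Fin 3) (d : Fin 10 → ℕ), ∃ b : ℕ → ℝ,
  (∀ (q : ℕ) (χ : DirichletCharacter ℂ q) (k : ℤ), ∏ i, PX χ z (tt i) (d i) k =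
    ∑ n ∈ Icc 1 ⌊Real.exp ((∑ i, (d i : ℝ)) / 20 + 1 / 2)⌋₊, ((b n : ℝ) : ℂ) * χ (n : ZMod q) * ch k (Real.log n)) ∧
  (∀ n : ℕ, 1 ≤ n → |b n| ≤ (1 + ∑ i, (d i : ℝ)) ^ 10 * (n.divisors.card : ℝ) ^ 10 / n) ∧
  (∀ n : ℕ, 1 ≤ n → b n ≠ 0 → |Real.log n - (∑ i, (d i : ℝ)) / 20| ≤ 1 / 2)

/-- **TUX** (adapt `AA_eq` of `Pool/Agent/Q95/KS/Tup.lean` in the same way). `aY` is the function there; it satisfies
`aY_eq` (`= Λ(n)/n` for `|log n - Y| ≤ 1/2`, `S_HB` is `Pool.Agent.Q257.KS.hb`) and `aY_zero`. -/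
def S_TUX : Prop := ∀ (Y : ℝ) (q : ℕ) (χ : DirichletCharacter ℂ q) (k : ℤ), AX χ Y k =
  ∑ n ∈ Icc 1 ⌊Real.exp (Y + 3 / 2)⌋₊, ((aY Y n : ℝ) : ℂ) * χ (n : ZMod q) * ch k (Real.log n)

/-- **MLSI**: the multiplicative large sieve on an interval. Proof: `MLS.prim_bound f (M + N) α'` with
`α' = α 1_{(M, M+N]}` in `Pool/Agent/Helper112/MultLS.lean` reduces to the additive sums
`∑_{n ≤ M + N} α'(n) e(n a / f) = e(M a / f) ∑_{m ≤ N} α(m + M) e(m a / f)`, then `additive_large_sieve N F` (as in the proof of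
`mult_large_sieve`). -/
def S_MLSI : Prop := ∀ (M N F : ℕ) (α : ℕ → ℂ),
  ∑ f ∈ Icc 1 F, ((f : ℝ) / (Nat.totient f : ℝ)) * ∑ χ ∈ prm f (fun _ => True),
    ‖∑ n ∈ Ioc M (M + N), α n * χ (n : ZMod f)‖ ^ 2 ≤ 6 * (N + (F : ℝ) ^ 2) * ∑ n ∈ Ioc M (M + N), ‖α n‖ ^ 2

/-- the absolute value of the Fourier coefficient of a window of length `δ` -/
noncomputable def gk (δ : ℝ) (k : ℤ) : ℝ :=
  if k = 0 then δ / (2 * Real.pi) else |Real.sin (k * δ / 2)| / (Real.pi * |(k : ℝ)|)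

/-- **PSV** (Parseval's identity for windows). Proof. Let `H` be the function on the circle `ℝ / 2π ℤ` (Mathlib:
`AddCircle (2π)`, `fourierCoeff`, `tsum_sq_fourierCoeff` / `hasSum_sq_fourierCoeffOn`) which is
`H(u) = ∑_{n ∈ s, u < log n ≤ u + δ} b n` for `v0 < u ≤ v0 + 2π`. Since `v0 + δ ≤ log n < v0 + 2π` for `n ∈ s`, the condition
`u < log n ≤ u + δ`, i.e. `log n - δ ≤ u < log n`, describes a subinterval of `[v0, v0 + 2π)`, and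
`(1/2π) ∫ H(u) e^{-iku} du = ∑ b n (1/2π) ∫_{log n - δ}^{log n} e^{-iku} du = DP s b k · (1/2π) ∫_{-δ}^0 e^{-ikv} dv`, and the last
factor has absolute value `gk δ k`. (Direct alternative without Fourier series of functions: both sides are hermitian forms in
`b`; it suffices to know the Fourier series of the tent `max 0 (δ - |v|)`.) -/
def S_PSV : Prop := ∀ (s : Finset ℕ) (b : ℕ → ℂ) (v0 δ : ℝ), 0 < δ → δ ≤ 1 →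
  (∀ n ∈ s, 1 ≤ n ∧ v0 + δ ≤ Real.log n ∧ Real.log n < v0 + 2 * Real.pi) →
  HasSum (fun k : ℤ => gk δ k ^ 2 * ‖DP s b k‖ ^ 2)
    (1 / (2 * Real.pi) * ∫ u in v0..(v0 + 2 * Real.pi),
      ‖∑ n ∈ s.filter (fun n : ℕ => u < Real.log n ∧ Real.log n ≤ u + δ), b n‖ ^ 2)

/-- **HLS** (`S_MLSI → S_PSV → S_HLS`): hybrid large sieve at integer frequencies. Proof. `δ = 1/K`, `v0 = v - 2`
(`v0 + δ ≤ v - 1 ≤ log n ≤ v + 1 < v0 + 2π`). For `|k| < K`: `gk δ k ≥ δ/π²` (`sin x ≥ 2x/π`), so by PSV with `b n χ(n)`,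
`∑_{|k| < K} ‖A_χ(k)‖² ≤ π⁴ K² (1/2π) ∫ ‖W_χ(u)‖² du`, `W_χ(u) = ∑_{n ∈ s, u < log n ≤ u + δ} b n χ(n)`. For fixed `u` the `n` lie in
`(M, M + N]`, `M = ⌊e^u⌋`, `N = ⌊e^{u+δ}⌋ - ⌊e^u⌋ ≤ 2 e^u δ + 1` (as `u ≥ v - 2`; for `u < 0` take `M = 0`, fine), and by MLSI (`f/φ(f) ≥ 1`)
`∑_f ∑_χ ‖W_χ(u)‖² ≤ 6 (2 e^u/K + 1 + F²) ∑_{window} ‖b n‖²`. Integrate over `u`: every `n` is counted for `u` in an interval of
length `1/K`, where `e^u ≤ n`. Total `≤ C K² (1/K) ∑ ‖b n‖² (n/K + F²)`. -/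
def S_HLS : Prop := ∃ C : ℝ, 1 ≤ C ∧ ∀ (F K : ℕ) (s : Finset ℕ) (b : ℕ → ℂ) (v : ℝ), 1 ≤ F → 1 ≤ K →
  (∀ n ∈ s, 1 ≤ n ∧ |Real.log n - v| ≤ 1) →
  ∑ f ∈ Icc 1 F, ∑ χ ∈ prm f (fun _ => True), ∑ k ∈ FK K,
    ‖∑ n ∈ s, b n * χ (n : ZMod f) * ch k (Real.log n)‖ ^ 2 ≤
    C * ∑ n ∈ s, ‖b n‖ ^ 2 * ((n : ℝ) + (F : ℝ) ^ 2 * K)

/-- **DVM**: divisor moments. Proof: `∑_{n ≤ M} d(n)^{20} / n ≤ (1 + log M)^{2^20}` (`Pool.Agent.H398R2.sum_card_pow_div` in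
`Pool/Agent/H398R2/BA1.lean`, check the namespace) and `1/n² ≤ e^{1/2 - D} / n` on the range. -/
def S_DVM : Prop := ∃ C : ℕ, 1 ≤ C ∧ ∀ D G : ℝ, 0 ≤ D → 0 ≤ G →
  ∑ n ∈ (Icc 1 ⌊Real.exp (D + 1 / 2)⌋₊).filter (fun n : ℕ => |Real.log n - D| ≤ 1 / 2),
    ((n.divisors.card : ℝ) ^ 10 / n) ^ 2 * ((n : ℝ) + G) ≤ C * (1 + D) ^ C * (1 + G * Real.exp (-D))

/-- **MSP** (`S_PRDX → S_HLS → S_DVM → S_MSP`): products of ten factors in mean square. Proof: immediate, with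
`D = ∑ d i / 20` and `G = F² K`; the coefficients `b n` vanish unless `|log n - D| ≤ 1/2`. -/
def S_MSP : Prop := ∃ C : ℕ, 1 ≤ C ∧ ∀ (F K z : ℕ) (tt : Fin 10 → Fin 3) (d : Fin 10 → ℕ), 1 ≤ F → 1 ≤ K →
  ∑ f ∈ Icc 1 F, ∑ χ ∈ prm f (fun _ => True), ∑ k ∈ FK K, ‖∏ i, PX χ z (tt i) (d i) k‖ ^ 2 ≤
    C * (1 + ∑ i, (d i : ℝ)) ^ C * (1 + (F : ℝ) ^ 2 * K * Real.exp (-((∑ i, (d i : ℝ)) / 20)))

/-- **BADC** (`S_MSP → S_BADC`): few bad characters. Proof. `PX χ z 1 0 k = 1` (`sp 0 = {1}`, `w 0 = 1`, `χ 1 = 1`). Let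
`K = Kc Y + 1`, `F = Fc Y`: `F² K ≤ 2 e^{0.525 Y}`. For every bad `χ` choose `(t, d, k)` with `‖PX χ (zY Y) t d k‖ > Y^{-B0}`,
`0.09 Y ≤ d/20 ≤ 0.45 Y`. There are at most `3 (9 Y + 1)` pairs `(t, d)`. For a fixed pair apply MSP with `tt i = t`, `d i = d` for
`i < 6` and `tt i = 1`, `d i = 0` for `i ≥ 6`: the left side is at least `Y^{-12 B0}` times the number of the bad `χ` with this pair, and
the right side at most `C (1 + 54 Y)^C (1 + 2 e^{0.525 Y} e^{-0.54 Y})`. -/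
def S_BADC : Prop := ∀ B0 : ℕ, ∃ (C : ℕ) (Y₀ : ℝ), ∀ Y : ℝ, Y₀ ≤ Y →
  ∑ f ∈ Icc 1 (Fc Y), ((prm f (fun χ => ¬ Good Y B0 χ)).card : ℝ) ≤ Y ^ C

/-- **MSQ** (`S_MSP → S_SMA → S_SMB → S_MSQ`): the Dirichlet polynomials of `χ Λ` for the good characters. Proof. `F = Fc Y`,
`K = Kc Y + 1`. By Cauchy-Schwarz `‖AX‖² ≤ 31² |DY Y| ∑_{d ∈ DY Y} ‖∏ i PX‖²` (`|ed d| ≤ 31`: `Pool.Agent.Q95.KS.ed_bound`;
`|DY Y| ≤ (20 Y + 21)^10`), so it suffices to bound, for each `d ∈ DY Y`, `S_d = ∑_f ∑_χ ∑_k ‖∏ i PX χ (zY Y) (ty i) (d i) k‖²` by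
`Y^{-A-12}`. As `∑ d i / 20 ≥ Y - 1`, some `j` has `α Y := d j / 20 ≥ (Y - 1)/10 ≥ 0.09 Y`. Let `R = ∏_{i ≠ j} PX` (again a product of ten
factors, put `tt j = 1`, `d j = 0`): MSP bounds its mean square over `|k| < K'` by `Y^{C'} (1 + F² K' e^{-(1-α)Y})` for every `K'`
(`∑_{i ≠ j} d i / 20 ≥ (1 - α) Y - 1`).
(a) `α ≤ 0.45`: `S_d ≤ Y^{-2 B0} Y^{C'} (1 + 2 e^{0.525 Y - 0.55 Y + 1}) `, so `B0 = C' + A + 12` works (`C'` is absolute).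
(b) `α > 0.45` and `j < 5`: `PX = 0`, because `cf z 0 d n ≠ 0` needs `n ≤ zY Y`, `log n ≤ (Y + 2)/5`, and `log n ≥ (d - 1)/20`.
(c) `α > 0.45`, `j ≥ 5` (`ty j ≠ 0`), `q ≤ F`, `χ ≠ 1` (primitive modulo `f ≥ 2`). If `α > 0.6`: SMA gives
`‖PX_j‖² ≤ C F² K² (1 + d)² e^{-2αY} ≤ Y^{C'} e^{(1.03 - 2α)Y}`, times `Y^{C'} (1 + e^{(0.53 - 1 + α) Y})`: exponents `≤ -0.17` and
`0.56 - α ≤ -0.04`. If `0.45 < α ≤ 0.6`: the `k` with `|k| ≤ e^{0.1 Y}` by SMA: `‖PX_j‖² ≤ Y^{C'} e^{(0.22 - 2α)Y}`, mean square of `R`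
`≤ Y^{C'} e^{0.12 Y}`; and the `k` with `K' ≤ |k| < 2K'`, `K' = 2^r ≥ e^{0.1 Y}/2`, `K' ≤ K` by SMB:
`‖PX_j‖² ≤ Y^{C'} e^{0.02 Y} (K' e^{-2αY} + 1/K')`, times `Y^{C'} (1 + e^{0.02 Y} K' e^{-(1-α)Y})`: the four products are (with
`K' ≤ e^{0.505 Y}`) at most `e^{(0.525 - 0.9)Y}`, `e^{(0.02 - 0.1) Y}`, `e^{(0.04 + 1.01 - 1 - α)Y}`, `e^{(0.04 - 1 + α)Y}`, all `≤ e^{-0.08 Y}` up to
`Y^{C'}`; there are at most `Y` values of `r`. -/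
def S_MSQ : Prop := ∀ A : ℕ, ∃ (B0 : ℕ) (Y₀ : ℝ), ∀ Y : ℝ, Y₀ ≤ Y →
  ∑ f ∈ Icc 2 (Fc Y), ∑ χ ∈ prm f (Good Y B0), ∑ k ∈ FK (Kc Y + 1), ‖AX χ Y k‖ ^ 2 ≤ 1 / Y ^ A

/-! ### windows -/

/-- **WINQ** (`S_PSV → S_TUX → S_MSP → S_MSQ → S_WINQ`). Proof. PSV with `s = {n : |log n - Y| ≤ 3/2}`, `b n = aY Y n χ(n)`,
`v0 = Y - 3`, `δ = κ`: `DP s b k = AX χ Y k` (TUX and `aY_zero`). For `|u - Y| ≤ 1/4` the window lies in `|log n - Y| ≤ 1/2`, where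
`aY Y n = Λ(n)/n` (`aY_eq` with `Pool.Agent.Q257.KS.hb`), so `H(u) = Wn χ κ u`. Hence
`∫_{Y-1/4}^{Y+1/4} ‖Wn χ κ u‖² ≤ 2π ∑_k gk² ‖AX χ Y k‖²`. `|k| ≤ Kc Y`: `gk ≤ κ/(2π)` and MSQ with `A + 1`. `|k| > Kc Y`: `gk ≤ 1/(π |k|)`, and for
`K' = 2^j (Kc Y + 1)`: Cauchy-Schwarz over `d ∈ DY Y` as in MSQ and MSP give
`∑_f ∑_χ ∑_{|k| < K'} ‖AX‖² ≤ Y^C (1 + F² K' e^{-Y})`, so the tail is at most
`∑_j Y^C (1 + F² 2 K' e^{-Y}) / K'^2 ≤ Y^C (e^{-1.01 Y} + e^{(0.02 - 1 - 0.505) Y}) · 8 ≤ κ² e^{-0.001 Y}` as `κ² ≥ e^{-1.008 Y}`. -/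
def S_WINQ : Prop := ∀ A : ℕ, ∃ (B0 : ℕ) (Y₀ : ℝ), ∀ Y : ℝ, Y₀ ≤ Y → ∀ κ : ℝ, Real.exp (-(0.504 * Y)) ≤ κ → κ ≤ 1 / 4 →
  ∑ f ∈ Icc 2 (Fc Y), ∑ χ ∈ prm f (Good Y B0), ∫ u in (Y - 1 / 4)..(Y + 1 / 4), ‖Wn χ κ u‖ ^ 2 ≤ κ ^ 2 / Y ^ A

/-- **CHS** (`S_WINQ → S_BADC → S_SML → S_CHS`). Proof. Let `B0` be the exponent of WINQ for `A' = 2A + 2B + 8`, where `B` is chosen
below (so first take `A'` large: see the order at the end). `1/φ(f) ≤ C Y / f` (e.g. `f/φ(f) ≤ 1 + log f`, or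
`Pool.Agent.H398R2.one_div_totient_le`). Split the range `2 ≤ f ≤ Fc Y` at `Y^B`.
(1) `f ≤ Y^B`: all characters are good (SML), and there are at most `Y^{2B}` of them; by Cauchy-Schwarz the sum of the
`∫ ‖Wn‖ ≤ (∫ ‖Wn‖²)^{1/2}` (the interval has length `1/2`) is at most `(Y^{2B} κ² Y^{-A'})^{1/2}`.
(2) `Y^B < f`, good characters: dyadic blocks `2^j < f ≤ 2^{j+1}`, at most `4^{j+1}` characters:
`(C Y / 2^j) (4^{j+1} κ² Y^{-A'})^{1/2} ≤ 2 C Y κ Y^{-A'/2}`, at most `Y` blocks.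
(3) `Y^B < f`, bad characters: at most `Y^{C₁}` of them (BADC for `B0`), `1/φ(f) ≤ C Y^{1-B}`, and
`∫ ‖Wn χ κ u‖ du ≤ ∫ ∑_{u < log n ≤ u + κ} Λ(n)/n du ≤ κ ∑_{|log n - Y| ≤ 1/2} Λ(n)/n ≤ 4 κ` (Chebyshev). Total `≤ 4 C κ Y^{C₁ + 1 - B}`.
Order of the choices: the exponent in (2), (3) only needs `A'₀ = 2A + 10`: let `B0` be the exponent of WINQ for `A'₀`, `C₁` that of BADC for
this `B0`, `B = C₁ + A + 3`, and let `B0'` be the exponent of WINQ for `A' = 2A + 2B + 8`; in (1) all characters are good with `B0'` (SML), so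
WINQ for `A'` can be used there. -/
def S_CHS : Prop := ∀ A : ℕ, ∃ Y₀ : ℝ, ∀ Y : ℝ, Y₀ ≤ Y → ∀ κ : ℝ, Real.exp (-(0.504 * Y)) ≤ κ → κ ≤ 1 / 4 →
  ∑ f ∈ Icc 2 (Fc Y), (1 / (Nat.totient f : ℝ)) * ∑ χ ∈ prm f (fun _ => True),
    ∫ u in (Y - 1 / 4)..(Y + 1 / 4), ‖Wn χ κ u‖ ≤ κ / Y ^ A

/-- **BVG** (`S_CHS → S_BVG`): Bombieri-Vinogradov in almost all windows. Proof. Let `G(u) = ∑_f (1/φ(f)) ∑_χ ‖Wn χ κ u‖`. The average over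
`t ∈ [0, κ]` of `∑_j G(Y - 1/4 + t + j κ)` is at most `(1/κ) ∫_{Y-1/4}^{Y+1/4} G ≤ Y^{-A'}` (`t + (j + 1) κ ≤ 1/2` for all `j` in the range), so
some `t` has `∑_j G(u_j) ≤ Y^{-A'}`. For this `t` and `u = u_j`, `q ≤ F = Fc Y`, `(a, q) = 1`: primes of the window exceed `e^{Y - 1/4} > q`, so by
orthogonality `th u κ q a - th u κ 1 0 / φ(q) = (1/φ(q)) ∑_{χ ≠ 1 mod q} conj χ(a) T_χ`, `T_χ = ∑_{p in the window} χ(p) log p`; `T_χ = T_ψ` for the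
primitive character `ψ` modulo `f | q`, `f ≥ 2`, that induces `χ` (`step2` in `Pool/Agent/Helper112/Bilinear.lean`). And
`|T_ψ - e^u Wn ψ κ u| ≤ κ th u κ 1 0 + pp(u)`, `pp(u)` the sum of `Λ(n)` over the `n` in the window that are prime powers and not primes
(`0 ≤ 1 - e^u/p ≤ 1 - e^{-κ} ≤ κ`). Sum over `q` and `j`: `∑_{q ≤ F, f | q} 1/φ(q) ≤ (1/φ(f)) ∑_{m ≤ F} 1/φ(m) ≤ C Y² / φ(f)` gives
`C Y² e^{Y+1} Y^{-A'}`; the errors give at most `F ∑_j (κ th u_j κ 1 0 + pp(u_j)) ≤ F (κ C e^Y + C e^{(Y+1)/2} Y²) ≤ e^{0.9 Y}`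
(`κ ≤ e^{-Y/4}`, Chebyshev; at most `C e^{(Y+1)/2} Y` proper prime powers `≤ e^{Y+1}`). Take `A' = A + 4`. -/
def S_BVG : Prop := ∀ A : ℕ, ∃ Y₀ : ℝ, ∀ Y : ℝ, Y₀ ≤ Y → ∀ κ : ℝ, Real.exp (-(0.504 * Y)) ≤ κ → κ ≤ Real.exp (-(Y / 4)) →
  ∃ t : ℝ, 0 ≤ t ∧ t ≤ κ ∧ ∀ a : ℕ → ℕ → ℕ, (∀ j q, (a j q).Coprime q) →
    ∑ j ∈ range (⌊1 / (2 * κ)⌋₊ - 1), ∑ q ∈ Icc 1 (Fc Y),
      |th (Y - 1 / 4 + t + j * κ) κ q (a j q) - th (Y - 1 / 4 + t + j * κ) κ 1 0 / (Nat.totient q : ℝ)| ≤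
        Real.exp Y / Y ^ A

/-! ### primes in the windows, sieve -/

/-- **POOR** (from `Pool.Agent.Q278.KT.mainp_half : MAINP (1 / 2) 0.306`, file `Pool/Agent/Q278/KT/Fin.lean`). Proof: with `c₁, η₁` from there and
`h = κ e^{Y - 1/4}`, `U = {e^{u_j} : j poor}`: `|u_j - Y| ≤ 1/4`, the points are `h`-separated (`e^{u + κ} - e^u ≥ κ e^u`), the interval
`(e^{u_j}, e^{u_j} + h]` is contained in the window, `h ≥ e^{(1/2 - η₁) Y}` if `η < η₁`. If `j` is not in `U` the window contains at least `c₁ h / Y` primes,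
each with `log p ≥ Y/2`, so `th ≥ c₁ h / 2 ≥ (c₁/4) κ e^Y`. -/
def S_POOR : Prop := ∃ c η Y₀ : ℝ, 0 < c ∧ 0 < η ∧ ∀ Y : ℝ, Y₀ ≤ Y → ∀ κ t : ℝ, Real.exp (-((1 / 2 + η) * Y)) ≤ κ →
  κ ≤ Real.exp (-(Y / 4)) → 0 ≤ t → t ≤ κ →
  (((range (⌊1 / (2 * κ)⌋₊ - 1)).filter
    (fun j : ℕ => th (Y - 1 / 4 + t + j * κ) κ 1 0 < c * κ * Real.exp Y)).card : ℝ) ≤ Real.exp (0.306 * Y)

open Classical in
/-- **SIVE**: the sieve in one window. Proof. `Pool.Agent.Y882.wts` (`Pool/Agent/Y882/Wts.lean`) with `τ' = 1/200`, `τ = 1/250`, `ζ₀ = 1/600` and the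
natural number `x = ⌈e^{Y+2}⌉`: weights `c d`, `|c d| ≤ 5 log x`, supported on squarefree `d ≤ x^{1/200} ≤ e^{Y/100}`. For a prime `p` of the window
`∑_{d | E - p} c d ≤ 1` if `E - p` has no prime factor `< x^{ζ₀}`, and `≤ 0` otherwise (`E > p`). Hence
`(Y + 1) #{good p} ≥ ∑_p log p ∑_{d | E - p} c d = ∑_d c d th u κ d E`. If `(d, E) > 1` then `th u κ d E = 0` (a prime dividing `d` and `E` and hence `p`
would be `p > e^{Y-1} > d`). So this is `≥ th u κ 1 0 ∑_{(d, E) = 1} c d/φ(d) - 5 log x ∑_{d ≤ Fc Y, (d,E)=1} |th u κ d E - th u κ 1 0/φ(d)|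
≥ c₀ κ e^Y · c / log x - 5 (Y + 3) κ e^Y / Y^4` (`one_le_sgs` in `Pool/Agent/Y882/Fin.lean`; `E ≤ 2 x`). `ζ = 1/700`. -/
def S_SIVE : Prop := ∃ ζ : ℝ, 0 < ζ ∧ ∀ c₀ : ℝ, 0 < c₀ → ∃ c Y₀ : ℝ, 0 < c ∧ ∀ Y : ℝ, Y₀ ≤ Y → ∀ (κ u : ℝ) (E : ℕ),
  Real.exp (-(0.504 * Y)) ≤ κ → κ ≤ Real.exp (-(Y / 4)) → Y - 1 / 4 ≤ u → u + κ ≤ Y + 1 / 4 → Even E →
  Real.exp (u + κ) < E → (E : ℝ) ≤ Real.exp (Y + 2) → c₀ * κ * Real.exp Y ≤ th u κ 1 0 →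
  ∑ q ∈ (Icc 1 (Fc Y)).filter (fun q => q.Coprime E), |th u κ q E - th u κ 1 0 / (Nat.totient q : ℝ)| ≤
    κ * Real.exp Y / Y ^ 4 →
  c * κ * Real.exp Y / Y ^ 2 ≤ (((Icc 1 ⌊Real.exp (u + κ)⌋₊).filter (fun p : ℕ => p.Prime ∧ u < Real.log p ∧
    ∀ l : ℕ, l.Prime → l ∣ E - p → Real.exp (ζ * Y) < l)).card : ℝ)

open Classical in
/-- the admissible `k` -/
noncomputable def KS (r : ℕ) (δ : ℝ) (N : ℕ) (α β : ℝ) : Finset ℕ :=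
  (Icc 2 (2 * N)).filter (fun k : ℕ => 2 * α * N ≤ k ∧ (k : ℝ) ≤ 2 * β * N ∧ (N ^ 2 + k + 1).Prime ∧
    ((N + 1) ^ 2 - k).primeFactorsList.length ≤ r ∧
      ∀ p : ℕ, p.Prime → p ∣ (N + 1) ^ 2 - k → (N : ℝ) ^ δ < p)

open Classical in
/-- **FIN** (`S_BVG → S_POOR → S_SIVE → S_FIN`), the theorem for MP_e94e4b_nt. Done by helper88. -/
def S_FIN : Prop := ∃ (r : ℕ) (c δ : ℝ), 0 < c ∧ 0 < δ ∧ ∀ A : ℕ, ∃ X₀ : ℕ, ∀ X : ℕ, X₀ ≤ X →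
  (((Icc 2 X).filter (fun N : ℕ => ¬ ∀ α β : ℝ, 0 ≤ α → β ≤ 1 → 1 / Real.log X ^ A ≤ β - α →
    c * ((β - α) * (N / Real.log N ^ 2)) ≤ ((KS r δ N α β).card : ℝ))).card : ℝ) ≤ X / Real.log X ^ A

end Pool.Agent.L7h88.BW
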