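import Pool.Agent.L7h88.BW.Stm

/-!
# Project BW: the final theorem, elementary part
-/

set_option autoImplicit false

namespace Pool.Agent.L7h88.BW

open Finset Filter MeasureTheory

lemma pow_len {B : ℝ} (hB : 0 ≤ B) (l : List ℕ) (h : ∀ p ∈ l, B ≤ (p : ℝ)) :
    B ^ l.length ≤ ((l.prod : ℕ) : ℝ) := by
  induction l with
  | nil => simp
  | cons a l ih =>
    rw [List.length_cons, List.prod_cons, pow_succ, mul_comm, Nat.cast_mul]
    have h1 := ih (fun p hp => h p (List.mem_cons_of_mem _ hp))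
    have h2 := h a List.mem_cons_self
    exact mul_le_mul h2 h1 (by positivity) (Nat.cast_nonneg _)

lemma len_le {N q r : ℕ} {δ : ℝ} (hN : 2 ≤ N) (hq : 1 ≤ q) (hqN : q ≤ N ^ 3) (hδ : 0 < δ)
    (hr : 3 / δ ≤ r) (h : ∀ p : ℕ, p.Prime → p ∣ q → (N : ℝ) ^ δ < p) :
    q.primeFactorsList.length ≤ r := by
  have hN1 : (1 : ℝ) < N := by exact_mod_cast (by omega : 1 < N)
  have hN0 : (0 : ℝ) < N := by linarith
  have h1 := pow_len (B := (N : ℝ) ^ δ) (by positivity) q.primeFactorsList (fun p hp =>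
    (h p (Nat.prime_of_mem_primeFactorsList hp) (Nat.dvd_of_mem_primeFactorsList hp)).le)
  rw [Nat.prod_primeFactorsList (by omega)] at h1
  have h2 : (q : ℝ) ≤ (N : ℝ) ^ (3 : ℝ) := by
    rw [show (3 : ℝ) = ((3 : ℕ) : ℝ) by norm_num, Real.rpow_natCast]
    exact_mod_cast hqN
  have h3 := h1.trans h2
  rw [← Real.rpow_natCast, ← Real.rpow_mul hN0.le] at h3
  have h4 := (Real.rpow_le_rpow_left_iff hN1).1 h3
  have h5 : (q.primeFactorsList.length : ℝ) ≤ 3 / δ := by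
    rw [le_div_iff₀ hδ]
    linarith
  exact_mod_cast h5.trans hr

/-- the number of grid windows in an interval -/
lemma grid {s κ a b : ℝ} {M : ℕ} (hκ : 0 < κ) (hs : s ≤ a) (hb : b ≤ s + M * κ) :
    (b - a) / κ - 2 ≤ (((range M).filter (fun j : ℕ => a ≤ s + j * κ ∧ s + j * κ + κ ≤ b)).card : ℝ) := by
  rcases lt_or_ge b s with hbs | hbs
  · have h0 : (b - a) / κ ≤ 0 := div_nonpos_of_nonpos_of_nonneg (by linarith) hκ.le
    have : (0 : ℝ) ≤ (((range M).filter (fun j : ℕ => a ≤ s + j * κ ∧ s + j * κ + κ ≤ b)).card : ℝ) :=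
      Nat.cast_nonneg _
    linarith
  have hsub : Ico ⌈(a - s) / κ⌉₊ ⌊(b - s) / κ⌋₊ ⊆
      (range M).filter (fun j : ℕ => a ≤ s + j * κ ∧ s + j * κ + κ ≤ b) := by
    intro j hj
    rw [mem_Ico] at hj
    have h1 : (a - s) / κ ≤ j := Nat.ceil_le.1 hj.1
    have h2 : ((j + 1 : ℕ) : ℝ) ≤ (b - s) / κ :=
      (Nat.cast_le.2 hj.2).trans (Nat.floor_le (div_nonneg (by linarith) hκ.le))
    rw [div_le_iff₀ hκ] at h1
    rw [le_div_iff₀ hκ] at h2
    push_cast at h2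
    rw [mem_filter, mem_range]
    refine ⟨?_, by linarith, by linarith⟩
    have h3 : (b - s) / κ ≤ M := by rw [div_le_iff₀ hκ]; linarith
    have h4 : ⌊(b - s) / κ⌋₊ ≤ M := by
      have := Nat.floor_le_floor h3
      rwa [Nat.floor_natCast] at this
    omega
  have hc := card_le_card hsub
  rw [Nat.card_Ico] at hc
  have h5 : (b - s) / κ - 1 < ⌊(b - s) / κ⌋₊ := Nat.sub_one_lt_floor _
  have h6 : (⌈(a - s) / κ⌉₊ : ℝ) < (a - s) / κ + 1 :=
    Nat.ceil_lt_add_one (div_nonneg (by linarith) hκ.le)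
  have h7 : ((⌊(b - s) / κ⌋₊ : ℝ)) - ⌈(a - s) / κ⌉₊ ≤ ((⌊(b - s) / κ⌋₊ - ⌈(a - s) / κ⌉₊ : ℕ) : ℝ) := by
    rw [sub_le_iff_le_add]
    exact_mod_cast (by omega : ⌊(b - s) / κ⌋₊ ≤ ⌊(b - s) / κ⌋₊ - ⌈(a - s) / κ⌉₊ + ⌈(a - s) / κ⌉₊)
  have h8 : ((⌊(b - s) / κ⌋₊ - ⌈(a - s) / κ⌉₊ : ℕ) : ℝ) ≤
      (((range M).filter (fun j : ℕ => a ≤ s + j * κ ∧ s + j * κ + κ ≤ b)).card : ℝ) := by
    exact_mod_cast hc
  have h9 : (b - a) / κ = (b - s) / κ - (a - s) / κ := by ring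
  linarith

/-- the even number `F(N) = N² + (N+1)² + 1` -/
def Fe (N : ℕ) : ℕ := 2 * N ^ 2 + 2 * N + 2

open Classical in
/-- the sifted primes of a window -/
noncomputable def SW (ζ Y κ u : ℝ) (E : ℕ) : Finset ℕ :=
  (Icc 1 ⌊Real.exp (u + κ)⌋₊).filter (fun p : ℕ => p.Prime ∧ u < Real.log p ∧
    ∀ l : ℕ, l.Prime → l ∣ E - p → Real.exp (ζ * Y) < l)

lemma mem_SW {ζ Y κ u : ℝ} {E p : ℕ} (h : p ∈ SW ζ Y κ u E) : p.Prime ∧ u < Real.log p ∧
    Real.log p ≤ u + κ ∧ ∀ l : ℕ, l.Prime → l ∣ E - p → Real.exp (ζ * Y) < l := by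
  classical
  unfold SW at h
  rw [mem_filter, mem_Icc] at h
  refine ⟨h.2.1, h.2.2.1, ?_, h.2.2.2⟩
  have hp0 : (0 : ℝ) < p := by exact_mod_cast h.1.1
  rw [Real.log_le_iff_le_exp hp0]
  exact (Nat.cast_le.2 h.1.2).trans (Nat.floor_le (Real.exp_pos _).le)

/-- the primes of the grid windows inside `((N + α')², …)` give admissible `k` -/
lemma sum_le_KS {r N : ℕ} {ζ Y κ s α β : ℝ} (hN : 3 ≤ N) (hκ : 0 < κ)
    (hζ : 0 < ζ) (hr : 3 / ζ ≤ r) (hα : 0 ≤ α) (hβ : β ≤ 1)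
    (hαβ : 4 ≤ (β - α) * N) (hNY : (N : ℝ) ^ ζ ≤ Real.exp (ζ * Y)) (G : Finset ℕ)
    (hG : ∀ j ∈ G, Real.log ((N : ℝ) ^ 2 + 2 * (α + (β - α) / 4) * N + 1) ≤ s + (j : ℕ) * κ ∧
      s + (j : ℕ) * κ + κ ≤ Real.log ((N : ℝ) ^ 2 + 2 * (β - (β - α) / 4) * N + 1)) :
    ∑ j ∈ G, ((SW ζ Y κ (s + (j : ℕ) * κ) (Fe N)).card : ℝ) ≤ ((KS r ζ N α β).card : ℝ) := by
  classical
  have hN0 : (0 : ℝ) < N := by exact_mod_cast (by omega : 0 < N)
  have hαβ0 : 0 < β - α := by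
    by_contra hc
    have : (β - α) * N ≤ 0 := mul_nonpos_of_nonpos_of_nonneg (not_lt.1 hc) hN0.le
    linarith
  have hdis : (G : Set ℕ).PairwiseDisjoint (fun j => SW ζ Y κ (s + (j : ℕ) * κ) (Fe N)) := by
    intro i _ j _ hij
    rw [Function.onFun, disjoint_left]
    intro p hp hp'
    have h1 := mem_SW hp
    have h2 := mem_SW hp'
    rcases lt_or_gt_of_ne hij with h | h
    · have h3 : (i : ℝ) + 1 ≤ j := by exact_mod_cast h
      have h4 := mul_le_mul_of_nonneg_right h3 hκ.le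
      linarith [h1.2.2.1, h2.2.1]
    · have h3 : (j : ℝ) + 1 ≤ i := by exact_mod_cast h
      have h4 := mul_le_mul_of_nonneg_right h3 hκ.le
      linarith [h2.2.2.1, h1.2.1]
  rw [← Nat.cast_sum, ← card_biUnion hdis, Nat.cast_le]
  apply card_le_card_of_injOn (fun m => m - N ^ 2 - 1)
  · intro p hp
    rw [mem_coe, mem_biUnion] at hp
    obtain ⟨j, hj, hp⟩ := hp
    obtain ⟨hpp, h1, h2, h3⟩ := mem_SW hp
    obtain ⟨g1, g2⟩ := hG j hj
    have hp0 : (0 : ℝ) < p := by exact_mod_cast hpp.pos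
    have e1 : (N : ℝ) ^ 2 + 2 * (α + (β - α) / 4) * N + 1 < p := by
      have hpos : 0 < (N : ℝ) ^ 2 + 2 * (α + (β - α) / 4) * N + 1 := by positivity
      rw [← Real.log_lt_log_iff hpos hp0]
      linarith
    have e2 : (p : ℝ) ≤ (N : ℝ) ^ 2 + 2 * (β - (β - α) / 4) * N + 1 := by
      have hpos : 0 < (N : ℝ) ^ 2 + 2 * (β - (β - α) / 4) * N + 1 := by
        have : 0 ≤ β - (β - α) / 4 := by linarith
        positivity
      rw [← Real.log_le_log_iff hp0 hpos]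
      linarith
    have e3 : ((N ^ 2 + 3 : ℕ) : ℝ) ≤ p := by
      push_cast
      have : 2 * (α + (β - α) / 4) * N = 2 * α * N + ((β - α) * N) / 2 := by ring
      have h5 : 0 ≤ 2 * α * N := by positivity
      linarith
    have e4 : (p : ℝ) ≤ ((N ^ 2 + 2 * N + 1 : ℕ) : ℝ) := by
      push_cast
      have : 2 * (β - (β - α) / 4) * N ≤ 2 * 1 * N := by
        apply mul_le_mul_of_nonneg_right _ hN0.le
        linarith
      linarith
    have e3' : N ^ 2 + 3 ≤ p := by exact_mod_cast e3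
    have e4' : p ≤ N ^ 2 + 2 * N + 1 := by exact_mod_cast e4
    show p - N ^ 2 - 1 ∈ (KS r ζ N α β : Set ℕ)
    obtain ⟨k, hk⟩ : ∃ k, p = N ^ 2 + k + 1 := ⟨p - N ^ 2 - 1, by omega⟩
    have ek : p - N ^ 2 - 1 = k := by omega
    rw [ek, mem_coe]
    have hk2 : 2 ≤ k := by omega
    have hk2N : k ≤ 2 * N := by omega
    have hsq : (N + 1) ^ 2 = N ^ 2 + 2 * N + 1 := by ring
    have eF : Fe N - p = (N + 1) ^ 2 - k := by
      unfold Fe
      omega
    have hpr : (p : ℝ) = (N : ℝ) ^ 2 + k + 1 := by exact_mod_cast hk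
    have hprimes : ∀ l : ℕ, l.Prime → l ∣ (N + 1) ^ 2 - k → (N : ℝ) ^ ζ < l := by
      intro l hl hd
      rw [← eF] at hd
      exact lt_of_le_of_lt hNY (h3 l hl hd)
    have hcube : (N + 1) ^ 2 ≤ N ^ 3 := by
      have : N ^ 3 = N * N ^ 2 := by ring
      nlinarith
    unfold KS
    rw [mem_filter, mem_Icc]
    refine ⟨⟨hk2, hk2N⟩, ?_, ?_, ?_, ?_, hprimes⟩
    · have : 2 * (α + (β - α) / 4) * N = 2 * α * N + ((β - α) * N) / 2 := by ring
      linarith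
    · have : 2 * (β - (β - α) / 4) * N = 2 * β * N - ((β - α) * N) / 2 := by ring
      linarith
    · rw [← hk]
      exact hpp
    · refine len_le (by omega) ?_ ?_ hζ hr hprimes
      · omega
      · omega
  · intro p hp p' hp' he
    have hmin : ∀ p : ℕ, p ∈ ((G.biUnion fun j => SW ζ Y κ (s + (j : ℕ) * κ) (Fe N) : Finset ℕ) : Set ℕ) →
        N ^ 2 + 1 ≤ p := by
      intro p hp
      rw [mem_coe, mem_biUnion] at hp
      obtain ⟨j, hj, hp⟩ := hp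
      obtain ⟨hpp, h1, h2, h3⟩ := mem_SW hp
      obtain ⟨g1, g2⟩ := hG j hj
      have hp0 : (0 : ℝ) < p := by exact_mod_cast hpp.pos
      have hpos : 0 < (N : ℝ) ^ 2 + 2 * (α + (β - α) / 4) * N + 1 := by positivity
      have e1 : (N : ℝ) ^ 2 + 2 * (α + (β - α) / 4) * N + 1 < p := by
        rw [← Real.log_lt_log_iff hpos hp0]
        linarith
      have h5 : 0 ≤ 2 * (α + (β - α) / 4) * N := by positivity
      have : ((N ^ 2 + 1 : ℕ) : ℝ) ≤ p := by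
        push_cast
        linarith
      exact_mod_cast this
    have a1 := hmin p hp
    have a2 := hmin p' hp'
    simp only at he
    omega

end Pool.Agent.L7h88.BW
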