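import Pool.Agent.L7h88.BW.Fin1

/-!
# Project BW: the final theorem, one block
-/

set_option autoImplicit false

namespace Pool.Agent.L7h88.BW

open Finset Filter MeasureTheory

lemma ev_pow_exp (C η : ℝ) (D : ℕ) (hη : 0 < η) : ∀ᶠ Y : ℝ in atTop, C * Y ^ D ≤ Real.exp (η * Y) := by
  have h1 : Tendsto (fun Y : ℝ => η * Y) atTop atTop := tendsto_id.const_mul_atTop hη
  have h2 := (Real.tendsto_pow_mul_exp_neg_atTop_nhds_zero D).comp h1
  have h3 : Tendsto (fun Y : ℝ => (C / η ^ D) * ((η * Y) ^ D * Real.exp (-(η * Y)))) atTop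
      (nhds ((C / η ^ D) * 0)) := h2.const_mul _
  rw [mul_zero] at h3
  filter_upwards [h3.eventually (gt_mem_nhds one_pos)] with Y hY
  have h4 : (C / η ^ D) * ((η * Y) ^ D * Real.exp (-(η * Y))) = C * Y ^ D * Real.exp (-(η * Y)) := by
    rw [mul_pow]
    field_simp
  rw [h4, Real.exp_neg, ← div_eq_mul_inv, div_lt_one (Real.exp_pos _)] at hY
  exact hY.le

/-- the integer `N` with `N² ≤ e^u < (N+1)²` -/
noncomputable def Nj (u : ℝ) : ℕ := ⌊Real.exp (u / 2)⌋₊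

lemma Nj_eq {N : ℕ} {u : ℝ} (h1 : (N : ℝ) ^ 2 ≤ Real.exp u) (h2 : Real.exp u < ((N : ℝ) + 1) ^ 2) :
    Nj u = N := by
  have he : Real.exp (u / 2) ^ 2 = Real.exp u := by
    rw [← Real.exp_nat_mul]
    congr 1
    push_cast
    ring
  unfold Nj
  rw [Nat.floor_eq_iff (Real.exp_pos _).le]
  constructor
  · exact (pow_le_pow_iff_left₀ (Nat.cast_nonneg _) (Real.exp_pos _).le (by norm_num : (2 : ℕ) ≠ 0)).1
      (by rw [he]; exact h1)
  · exact (pow_lt_pow_iff_left₀ (Real.exp_pos _).le (by positivity) (by norm_num : (2 : ℕ) ≠ 0)).1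
      (by rw [he]; exact h2)

/-- the error in the window `u` -/
noncomputable def err (Y κ u : ℝ) : ℝ :=
  ∑ q ∈ (Icc 1 (Fc Y)).filter (fun q => q.Coprime (Fe (Nj u))),
    |th u κ q (Fe (Nj u)) - th u κ 1 0 / (Nat.totient q : ℝ)|

open Classical in
/-- the bad windows -/
noncomputable def Bd (Y κ c t : ℝ) : Finset ℕ :=
  (range (⌊1 / (2 * κ)⌋₊ - 1)).filter (fun j : ℕ => th (Y - 1 / 4 + t + j * κ) κ 1 0 < c * κ * Real.exp Y ∨
    κ * Real.exp Y / Y ^ 4 < err Y κ (Y - 1 / 4 + t + j * κ))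

open Classical in
/-- few bad windows -/
lemma Bd_card {Y κ c t : ℝ} {A₁ : ℕ} (hY : 0 < Y) (hκ : 0 < κ)
    (h1 : (((range (⌊1 / (2 * κ)⌋₊ - 1)).filter
      (fun j : ℕ => th (Y - 1 / 4 + t + j * κ) κ 1 0 < c * κ * Real.exp Y)).card : ℝ) ≤ Real.exp (0.306 * Y))
    (h2 : ∀ a : ℕ → ℕ → ℕ, (∀ j q, (a j q).Coprime q) →
      ∑ j ∈ range (⌊1 / (2 * κ)⌋₊ - 1), ∑ q ∈ Icc 1 (Fc Y),
        |th (Y - 1 / 4 + t + j * κ) κ q (a j q) - th (Y - 1 / 4 + t + j * κ) κ 1 0 / (Nat.totient q : ℝ)| ≤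
          Real.exp Y / Y ^ A₁) :
    ((Bd Y κ c t).card : ℝ) ≤ Real.exp (0.306 * Y) + Y ^ 4 / (κ * Y ^ A₁) := by
  have e0 : 0 < κ * Real.exp Y / Y ^ 4 := by positivity
  set R := range (⌊1 / (2 * κ)⌋₊ - 1) with hR
  set u : ℕ → ℝ := fun j => Y - 1 / 4 + t + j * κ with hu
  have h3 : ∑ j ∈ R, err Y κ (u j) ≤ Real.exp Y / Y ^ A₁ := by
    refine le_trans ?_ (h2 (fun j q => if (Fe (Nj (u j))).Coprime q then Fe (Nj (u j)) else 1) ?_)
    · apply sum_le_sum
      intro j _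
      unfold err
      calc _ = ∑ q ∈ (Icc 1 (Fc Y)).filter (fun q => q.Coprime (Fe (Nj (u j)))),
            |th (u j) κ q (if (Fe (Nj (u j))).Coprime q then Fe (Nj (u j)) else 1) -
              th (u j) κ 1 0 / (Nat.totient q : ℝ)| := by
            apply sum_congr rfl
            intro q hq
            rw [mem_filter] at hq
            rw [if_pos hq.2.symm]
        _ ≤ _ := sum_le_sum_of_subset_of_nonneg (filter_subset _ _) fun _ _ _ => abs_nonneg _
    · intro j q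
      split_ifs with h
      · exact h
      · exact Nat.coprime_one_left q
  have h4 : ((R.filter (fun j : ℕ => κ * Real.exp Y / Y ^ 4 < err Y κ (u j))).card : ℝ) ≤
      Y ^ 4 / (κ * Y ^ A₁) := by
    have h5 : ((R.filter (fun j : ℕ => κ * Real.exp Y / Y ^ 4 < err Y κ (u j))).card : ℝ) *
        (κ * Real.exp Y / Y ^ 4) ≤ ∑ j ∈ R, err Y κ (u j) := by
      rw [← nsmul_eq_mul]
      calc _ ≤ ∑ j ∈ R.filter (fun j : ℕ => κ * Real.exp Y / Y ^ 4 < err Y κ (u j)), err Y κ (u j) := by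
            apply card_nsmul_le_sum
            intro j hj
            exact (mem_filter.1 hj).2.le
        _ ≤ _ := sum_le_sum_of_subset_of_nonneg (filter_subset _ _) fun _ _ _ =>
            sum_nonneg fun _ _ => abs_nonneg _
    have h6 := h5.trans h3
    rw [← le_div_iff₀ e0] at h6
    refine h6.trans (le_of_eq ?_)
    field_simp
  have h7 : Bd Y κ c t ⊆ R.filter (fun j : ℕ => th (u j) κ 1 0 < c * κ * Real.exp Y) ∪
      R.filter (fun j : ℕ => κ * Real.exp Y / Y ^ 4 < err Y κ (u j)) := by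
    intro j hj
    unfold Bd at hj
    rw [mem_filter] at hj
    rw [mem_union, mem_filter, mem_filter]
    rcases hj.2 with h | h
    · exact Or.inl ⟨hj.1, h⟩
    · exact Or.inr ⟨hj.1, h⟩
  have h8 := (card_le_card h7).trans (card_union_le _ _)
  have h9 : ((Bd Y κ c t).card : ℝ) ≤ ((R.filter (fun j : ℕ => th (u j) κ 1 0 < c * κ * Real.exp Y)).card : ℝ) +
      ((R.filter (fun j : ℕ => κ * Real.exp Y / Y ^ 4 < err Y κ (u j))).card : ℝ) := by exact_mod_cast h8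
  linarith

end Pool.Agent.L7h88.BW
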