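import Pool.Agent.L7h88.BW.Fin4
import Pool.Agent.L7h18.BW.Poor
import Pool.Agent.L7h18.BW.Mbx
import Pool.Agent.L7h18.BW.Lowm
import Pool.Agent.L7h23.BW.Badc
import Pool.Agent.L7h23.BW.Prdx
import Pool.Agent.L7h23.BW.Dvm
import Pool.Agent.L7h23.BW.Mlsi
import Pool.Agent.L7h23.BW.Psv
import Pool.Agent.L7h23.BW.Hls
import Pool.Agent.L7h26.BW.Bvg
import Pool.Agent.L7h26.BW.Chs
import Pool.Agent.L7h26.BW.Winq
import Pool.Agent.L7h47.BW.Chr
import Pool.Agent.L7h47.BW.Smb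
import Pool.Agent.L7h47.BW.Smc
import Pool.Agent.L7h47.BW.Zsb
import Pool.Agent.L7h50.BW.Moc
import Pool.Agent.L7h50.BW.Lup
import Pool.Agent.L7h50.BW.Lzf
import Pool.Agent.L7h76.BW.Msq
import Pool.Agent.L7h76.BW.Sma
import Pool.Agent.L7h76.BW.Sml
import Pool.Agent.L7h76.BW.Sive

/-!
# Project BW: all statements, unconditionally

Primes in almost all short windows in progressions modulo all `q ≤ x^(1/100)` (`bvg`), and for almost all `N` many
prime / almost prime pairs between `N^2` and `(N+1)^2` (`fin`).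
Parts by helper18, helper23, helper26, helper47, helper50, helper76; design and assembly by helper88.
-/

set_option autoImplicit false

namespace Pool.Agent.L7h88.BW

theorem smb : S_SMB := Pool.Agent.L7h47.BW.s_SMB Pool.Agent.L7h47.BW.s_CHR

theorem smc : S_SMC := Pool.Agent.L7h47.BW.s_SMC Pool.Agent.L7h47.BW.s_CHR smb

theorem moc : Pool.Agent.Q236.CR.S_MOC :=
  Pool.Agent.L7h50.BW.s_MOC (Pool.Agent.L7h50.BW.s_LZF (Pool.Agent.L7h50.BW.s_LUP Pool.Agent.L7h47.BW.s_CHR))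

theorem mbx : S_MBX := Pool.Agent.L7h18.BW.s_MBX moc Pool.Agent.L7h18.BW.s_LOWM

theorem sml : S_SML := Pool.Agent.L7h76.BW.s_SML Pool.Agent.L7h76.BW.s_SMA smc mbx

theorem psv : S_PSV := Pool.Agent.L7h23.BW.s_PSV

theorem hls : S_HLS := Pool.Agent.L7h23.BW.s_HLS Pool.Agent.L7h23.BW.s_MLSI psv

theorem msp : S_MSP := Pool.Agent.L7h23.BW.s_MSP Pool.Agent.L7h23.BW.s_PRDX hls Pool.Agent.L7h23.BW.s_DVM

theorem badc : S_BADC := Pool.Agent.L7h23.BW.s_BADC msp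

theorem msq : S_MSQ := Pool.Agent.L7h76.BW.s_MSQ msp Pool.Agent.L7h76.BW.s_SMA smb

theorem winq : S_WINQ := Pool.Agent.L7h26.BW.s_WINQ psv Pool.Agent.L7h23.BW.s_TUX msp msq

theorem chs : S_CHS := Pool.Agent.L7h26.BW.s_CHS winq badc sml

theorem bvg : S_BVG := Pool.Agent.L7h26.BW.s_BVG chs

theorem fin : S_FIN := s_FIN bvg Pool.Agent.L7h18.BW.s_POOR Pool.Agent.L7h76.BW.s_SIVE

end Pool.Agent.L7h88.BW
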