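import Pool.Agent.L7h88.BW.Fin2

/-!
# Project BW: the final theorem, one `N`
-/

set_option autoImplicit false

namespace Pool.Agent.L7h88.BW

open Finset Filter MeasureTheory

/-- conclusion of the sieve in the windows of the grid -/
def SieveOK (ζ c₁ c₂ Y κ t : ℝ) : Prop := ∀ (u : ℝ) (E : ℕ),
  Y - 1 / 4 ≤ u → u + κ ≤ Y + 1 / 4 → Even E →
  Real.exp (u + κ) < E → (E : ℝ) ≤ Real.exp (Y + 2) → c₁ * κ * Real.exp Y ≤ th u κ 1 0 →
  ∑ q ∈ (Icc 1 (Fc Y)).filter (fun q => q.Coprime E), |th u κ q E - th u κ 1 0 / (Nat.totient q : ℝ)| ≤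
    κ * Real.exp Y / Y ^ 4 →
  c₂ * κ * Real.exp Y / Y ^ 2 ≤ ((SW ζ Y κ u E).card : ℝ)

lemma Fe_even (N : ℕ) : Even (Fe N) := ⟨N ^ 2 + N + 1, by unfold Fe; ring⟩

/-- the grid windows in the `(α, β)` part of `(N², (N+1)²)` -/
lemma light {r N A : ℕ} {ζ c₁ c₂ Y κ t α β : ℝ} (hY : 10 ≤ Y) (hκ0 : 0 < κ)
    (hκ : κ = Real.exp (-(Y / 2)) / Y ^ (A + 2)) (ht0 : 0 ≤ t) (htκ : t ≤ κ) (hκs : κ ≤ 1 / 100)
    (hζ : 0 < ζ) (hr : 3 / ζ ≤ r) (hc₂ : 0 < c₂) (hS : SieveOK ζ c₁ c₂ Y κ t)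
    (hN1 : Y / 2 - 1 / 10 ≤ Real.log N) (hN2 : Real.log N ≤ Y / 2 + 1 / 10) (hN100 : 100 ≤ N)
    (hα : 0 ≤ α) (hβ : β ≤ 1) (hαβ : 1 / Y ^ A ≤ β - α) (h4 : 4 * Y ^ A ≤ N)
    (hlight : (((Bd Y κ c₁ t).filter (fun j : ℕ => Nj (Y - 1 / 4 + t + j * κ) = N)).card : ℝ) ≤ Y ^ 2 / 5) :
    c₂ / 40 * ((β - α) * (N / Real.log N ^ 2)) ≤ ((KS r ζ N α β).card : ℝ) := by
  classical
  have hY0 : 0 < Y := by linarith
  have hYA : 0 < Y ^ A := by positivity
  have hNr : (100 : ℝ) ≤ N := by exact_mod_cast hN100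
  have hN0 : (0 : ℝ) < N := by linarith
  have hαβ0 : 0 < β - α := lt_of_lt_of_le (by positivity) hαβ
  have hαβN : 4 ≤ (β - α) * N := by
    calc (4 : ℝ) = 1 / Y ^ A * (4 * Y ^ A) := by field_simp
      _ ≤ (β - α) * N := mul_le_mul hαβ h4 (by positivity) hαβ0.le
  obtain ⟨M, hM⟩ : ∃ M, M = ⌊1 / (2 * κ)⌋₊ - 1 := ⟨_, rfl⟩
  obtain ⟨s, hs⟩ : ∃ s, s = Y - 1 / 4 + t := ⟨_, rfl⟩
  obtain ⟨x1, hx1⟩ : ∃ x1, x1 = (N : ℝ) ^ 2 + 2 * (α + (β - α) / 4) * N + 1 := ⟨_, rfl⟩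
  obtain ⟨x2, hx2⟩ : ∃ x2, x2 = (N : ℝ) ^ 2 + 2 * (β - (β - α) / 4) * N + 1 := ⟨_, rfl⟩
  have hx1l : (N : ℝ) ^ 2 + 1 ≤ x1 := by
    rw [hx1]
    have : 0 ≤ 2 * (α + (β - α) / 4) * N := by positivity
    linarith
  have hx21 : x2 - x1 = (β - α) * N := by rw [hx1, hx2]; ring
  have hx2u : x2 ≤ ((N : ℝ) + 1) ^ 2 - 2 := by
    rw [hx2]
    have : 2 * (β - (β - α) / 4) * N = 2 * β * N - ((β - α) * N) / 2 := by ring
    have h5 : 2 * β * N ≤ 2 * N := by nlinarith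
    nlinarith
  have hx10 : 0 < x1 := by nlinarith
  have hx20 : 0 < x2 := by nlinarith
  -- positions of the logarithms
  have hlogN2 : Real.log ((N : ℝ) ^ 2) = 2 * Real.log N := by
    rw [Real.log_pow]
    push_cast
    ring
  have hN2pos : 0 < (N : ℝ) ^ 2 := by positivity
  have ha : Y - 1 / 5 ≤ Real.log x1 := by
    have h5 := Real.log_le_log hN2pos (by linarith : (N : ℝ) ^ 2 ≤ x1)
    rw [hlogN2] at h5
    linarith
  have hb : Real.log x2 ≤ Y + 1 / 5 + 1 / 40 := by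
    have h5 := Real.log_le_log hx20 (by linarith : x2 ≤ ((N : ℝ) + 1) ^ 2)
    rw [Real.log_pow] at h5
    have h6 : Real.log ((N : ℝ) + 1) ≤ Real.log N + 1 / N := by
      have h7 := Real.log_le_sub_one_of_pos (show 0 < ((N : ℝ) + 1) / N by positivity)
      rw [Real.log_div (by positivity) hN0.ne'] at h7
      have h8 : ((N : ℝ) + 1) / N - 1 = 1 / N := by field_simp; ring
      linarith
    have h9 : 1 / (N : ℝ) ≤ 1 / 100 := one_div_le_one_div_of_le (by norm_num) hNr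
    push_cast at h5
    linarith
  have hMκ : 1 / 2 - 2 * κ ≤ M * κ := by
    have h5 : 1 / (2 * κ) - 1 < ⌊1 / (2 * κ)⌋₊ := Nat.sub_one_lt_floor _
    have h6 : ((⌊1 / (2 * κ)⌋₊ : ℝ)) - 1 ≤ M := by
      rw [sub_le_iff_le_add, hM]
      exact_mod_cast (by omega : ⌊1 / (2 * κ)⌋₊ ≤ ⌊1 / (2 * κ)⌋₊ - 1 + 1)
    have h7 : 1 / (2 * κ) - 2 ≤ M := by linarith
    have h8 := mul_le_mul_of_nonneg_right h7 hκ0.le
    have h9 : (1 / (2 * κ) - 2) * κ = 1 / 2 - 2 * κ := by field_simp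
    linarith
  have hMκ' : (M : ℝ) * κ ≤ 1 / 2 - κ := by
    have h5 : (⌊1 / (2 * κ)⌋₊ : ℝ) ≤ 1 / (2 * κ) := Nat.floor_le (by positivity)
    have h6 : 1 ≤ ⌊1 / (2 * κ)⌋₊ := by
      apply Nat.le_floor
      rw [Nat.cast_one, le_div_iff₀ (by positivity)]
      linarith
    have h7 : (M : ℝ) = ⌊1 / (2 * κ)⌋₊ - 1 := by
      rw [hM, Nat.cast_sub h6, Nat.cast_one]
    have h8 : (M : ℝ) ≤ 1 / (2 * κ) - 1 := by linarith
    have h9 := mul_le_mul_of_nonneg_right h8 hκ0.le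
    have h10 : (1 / (2 * κ) - 1) * κ = 1 / 2 - κ := by field_simp
    linarith
  have hsa : s ≤ Real.log x1 := by linarith
  have hbs : Real.log x2 ≤ s + M * κ := by linarith
  have hgrid := grid (M := M) hκ0 hsa hbs
  obtain ⟨W, hW⟩ : ∃ W, W = (range M).filter (fun j : ℕ => Real.log x1 ≤ s + j * κ ∧
    s + j * κ + κ ≤ Real.log x2) := ⟨_, rfl⟩
  rw [← hW] at hgrid
  -- the number of windows
  have hlen : (β - α) / (1.1 * N) ≤ Real.log x2 - Real.log x1 := by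
    have h5 := Real.one_sub_inv_le_log_of_pos (show 0 < x2 / x1 by positivity)
    rw [Real.log_div hx20.ne' hx10.ne', inv_div] at h5
    refine le_trans ?_ h5
    have h6 : 1 - x1 / x2 = (β - α) * N / x2 := by
      rw [← hx21]
      field_simp
    rw [h6, div_le_div_iff₀ (by positivity) hx20]
    have h7 : x2 ≤ 1.1 * (N : ℝ) ^ 2 := by nlinarith
    calc (β - α) * x2 ≤ (β - α) * (1.1 * (N : ℝ) ^ 2) := mul_le_mul_of_nonneg_left h7 hαβ0.le
      _ = (β - α) * N * (1.1 * N) := by ring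
  have hNe : (N : ℝ) ≤ Real.exp (Y / 2) * 1.12 := by
    have h5 : (N : ℝ) ≤ Real.exp (Y / 2 + 1 / 10) := by
      rw [← Real.log_le_iff_le_exp hN0]
      exact hN2
    rw [Real.exp_add] at h5
    have h6 : Real.exp (1 / 10 : ℝ) ≤ 1.12 := by
      have := Real.exp_bound_div_one_sub_of_interval (x := (1 / 10 : ℝ)) (by norm_num) (by norm_num)
      exact this.trans (by norm_num)
    exact h5.trans (mul_le_mul_of_nonneg_left h6 (Real.exp_pos _).le)
  have hP : (β - α) * Y ^ (A + 2) ≥ Y ^ 2 := by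
    calc Y ^ 2 = 1 / Y ^ A * Y ^ (A + 2) := by
          rw [pow_add]
          field_simp
      _ ≤ (β - α) * Y ^ (A + 2) := mul_le_mul_of_nonneg_right hαβ (by positivity)
  have hW1 : 0.6 * ((β - α) * Y ^ (A + 2)) ≤ (W.card : ℝ) := by
    have h5 : 0.8 * ((β - α) * Y ^ (A + 2)) ≤ (Real.log x2 - Real.log x1) / κ := by
      rw [le_div_iff₀ hκ0]
      refine le_trans ?_ hlen
      rw [le_div_iff₀ (by positivity), hκ]
      have h6 : 0.8 * ((β - α) * Y ^ (A + 2)) * (Real.exp (-(Y / 2)) / Y ^ (A + 2)) * (1.1 * N) =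
          (β - α) * (0.88 * (N * Real.exp (-(Y / 2)))) := by
        field_simp
        ring
      rw [h6]
      have h7 : (N : ℝ) * Real.exp (-(Y / 2)) ≤ 1.12 := by
        rw [Real.exp_neg, ← div_eq_mul_inv, div_le_iff₀ (Real.exp_pos _)]
        linarith
      have h8 : 0.88 * ((N : ℝ) * Real.exp (-(Y / 2))) ≤ 1 := by linarith
      calc (β - α) * (0.88 * (N * Real.exp (-(Y / 2)))) ≤ (β - α) * 1 :=
            mul_le_mul_of_nonneg_left h8 hαβ0.le
        _ = β - α := mul_one _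
    have h9 : (100 : ℝ) ≤ Y ^ 2 := by nlinarith
    nlinarith
  -- the good ones
  obtain ⟨G, hG⟩ : ∃ G, G = W.filter (fun j => j ∉ Bd Y κ c₁ t) := ⟨_, rfl⟩
  have hNjW : ∀ j ∈ W, Nj (Y - 1 / 4 + t + (j : ℕ) * κ) = N := by
    intro j hj
    rw [hW, mem_filter] at hj
    obtain ⟨_, g1, g2⟩ := hj
    rw [← hs]
    apply Nj_eq
    · have h5 := (Real.log_le_iff_le_exp hx10).1 g1
      linarith
    · have h5 : s + (j : ℕ) * κ < Real.log x2 := by linarith
      have h6 := (Real.lt_log_iff_exp_lt hx20).1 h5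
      linarith
  have hGc : 0.4 * ((β - α) * Y ^ (A + 2)) ≤ (G.card : ℝ) := by
    have h5 : W.card = (W.filter (fun j => j ∈ Bd Y κ c₁ t)).card + G.card := by
      rw [hG, card_filter_add_card_filter_not]
    have h6 : (W.filter (fun j => j ∈ Bd Y κ c₁ t)).card ≤
        ((Bd Y κ c₁ t).filter (fun j : ℕ => Nj (Y - 1 / 4 + t + j * κ) = N)).card := by
      apply card_le_card
      intro j hj
      rw [mem_filter] at hj ⊢
      exact ⟨hj.2, hNjW j hj.1⟩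
    have h7 : ((W.filter (fun j => j ∈ Bd Y κ c₁ t)).card : ℝ) ≤ Y ^ 2 / 5 :=
      (Nat.cast_le.2 h6).trans hlight
    have h8 : (W.card : ℝ) = ((W.filter (fun j => j ∈ Bd Y κ c₁ t)).card : ℝ) + G.card := by
      exact_mod_cast h5
    nlinarith
  have hNY : (N : ℝ) ^ ζ ≤ Real.exp (ζ * Y) := by
    rw [Real.rpow_def_of_pos hN0]
    apply Real.exp_le_exp.2
    rw [mul_comm]
    exact mul_le_mul_of_nonneg_left (by linarith) hζ.le
  have hsum := sum_le_KS (r := r) (N := N) (ζ := ζ) (Y := Y) (κ := κ) (s := s) (α := α) (β := β)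
    (by omega) hκ0 hζ hr hα hβ hαβN hNY G (by
      intro j hj
      rw [hG, mem_filter, hW, mem_filter] at hj
      rw [← hx1, ← hx2]
      exact hj.1.2)
  have hone : ∀ j ∈ G, c₂ * κ * Real.exp Y / Y ^ 2 ≤ ((SW ζ Y κ (s + (j : ℕ) * κ) (Fe N)).card : ℝ) := by
    intro j hj
    rw [hG, mem_filter] at hj
    have hNj := hNjW j hj.1
    have hjW := hj.1
    rw [hW, mem_filter, mem_range] at hjW
    obtain ⟨g0, g1, g2⟩ := hjW
    have hnb := hj.2
    unfold Bd at hnb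
    rw [mem_filter, mem_range, not_and_or, not_or, not_lt, not_lt] at hnb
    rw [← hM, ← hs] at hnb
    rcases hnb with h | ⟨h5, h6⟩
    · exact absurd g0 (not_lt.2 h)
    have hNj' : Nj (s + (j : ℕ) * κ) = N := by rw [hs]; exact hNj
    unfold err at h6
    rw [hNj'] at h6
    apply hS
    · have : 0 ≤ (j : ℝ) * κ := by positivity
      linarith
    · have h7 : (j : ℝ) + 1 ≤ M := by exact_mod_cast g0
      have h8 := mul_le_mul_of_nonneg_right h7 hκ0.le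
      linarith
    · exact Fe_even N
    · have h7 := (Real.le_log_iff_exp_le hx20).1 g2
      unfold Fe
      push_cast
      nlinarith
    · have h7 : ((Fe N : ℕ) : ℝ) ≤ 3 * (N : ℝ) ^ 2 := by
        unfold Fe
        push_cast
        nlinarith
      have h8 : (N : ℝ) ^ 2 ≤ Real.exp (Y + 1 / 5) := by
        rw [← Real.log_le_iff_le_exp hN2pos, hlogN2]
        linarith
      have h9 : (3 : ℝ) ≤ Real.exp (9 / 5 : ℝ) := by
        have := Real.quadratic_le_exp_of_nonneg (show (0 : ℝ) ≤ 9 / 5 by norm_num)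
        linarith
      calc ((Fe N : ℕ) : ℝ) ≤ 3 * (N : ℝ) ^ 2 := h7
        _ ≤ Real.exp (9 / 5 : ℝ) * Real.exp (Y + 1 / 5) := mul_le_mul h9 h8 (by positivity) (by positivity)
        _ = Real.exp (Y + 2) := by rw [← Real.exp_add]; congr 1; ring
    · exact h5
    · exact not_lt.1 h6
  have hfin : (G.card : ℝ) * (c₂ * κ * Real.exp Y / Y ^ 2) ≤ ((KS r ζ N α β).card : ℝ) := by
    refine le_trans ?_ hsum
    rw [← nsmul_eq_mul]
    exact card_nsmul_le_sum _ _ _ hone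
  refine le_trans ?_ hfin
  have hlogN0 : Y / 3 ≤ Real.log N := by linarith
  have hlogsq : Y ^ 2 / 9 ≤ Real.log N ^ 2 := by
    have := mul_le_mul hlogN0 hlogN0 (by positivity) (by linarith)
    nlinarith
  have h10 : (N : ℝ) / Real.log N ^ 2 ≤ Real.exp (Y / 2) * 10.08 / Y ^ 2 := by
    rw [div_le_div_iff₀ (by nlinarith) (by positivity)]
    have h11 : Real.exp (Y / 2) * 1.12 * Y ^ 2 ≤ Real.exp (Y / 2) * 10.08 * Real.log N ^ 2 := by
      have : Real.exp (Y / 2) * 1.12 * Y ^ 2 = Real.exp (Y / 2) * 10.08 * (Y ^ 2 / 9) := by ring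
      rw [this]
      exact mul_le_mul_of_nonneg_left hlogsq (by positivity)
    refine le_trans ?_ h11
    exact mul_le_mul_of_nonneg_right hNe (by positivity)
  have h12 : κ * Real.exp Y = Real.exp (Y / 2) / Y ^ (A + 2) := by
    rw [hκ, div_mul_eq_mul_div, ← Real.exp_add]
    congr 2
    ring
  calc c₂ / 40 * ((β - α) * (N / Real.log N ^ 2))
      ≤ c₂ / 40 * ((β - α) * (Real.exp (Y / 2) * 10.08 / Y ^ 2)) := by
        apply mul_le_mul_of_nonneg_left _ (by positivity)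
        exact mul_le_mul_of_nonneg_left h10 hαβ0.le
    _ ≤ 0.4 * ((β - α) * Y ^ (A + 2)) * (c₂ * (Real.exp (Y / 2) / Y ^ (A + 2)) / Y ^ 2) := by
        have h13 : 0.4 * ((β - α) * Y ^ (A + 2)) * (c₂ * (Real.exp (Y / 2) / Y ^ (A + 2)) / Y ^ 2) =
            0.4 * (c₂ * ((β - α) * (Real.exp (Y / 2) / Y ^ 2))) := by
          field_simp
        rw [h13]
        have h14 : c₂ / 40 * ((β - α) * (Real.exp (Y / 2) * 10.08 / Y ^ 2)) =
            0.252 * (c₂ * ((β - α) * (Real.exp (Y / 2) / Y ^ 2))) := by ring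
        rw [h14]
        have h15 : 0 ≤ c₂ * ((β - α) * (Real.exp (Y / 2) / Y ^ 2)) := by positivity
        nlinarith
    _ ≤ (G.card : ℝ) * (c₂ * κ * Real.exp Y / Y ^ 2) := by
        rw [mul_assoc c₂ κ, h12]
        exact mul_le_mul_of_nonneg_right hGc (by positivity)

end Pool.Agent.L7h88.BW
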