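import Pool.Agent.L7h88.BW.Fin3

/-!
# Project BW: the final theorem
-/

set_option autoImplicit false

namespace Pool.Agent.L7h88.BW

open Finset Filter MeasureTheory

open Classical in
/-- the exceptional `N` of a block -/
noncomputable def Ex (r : ℕ) (c ζ : ℝ) (A : ℕ) (Y : ℝ) : Finset ℕ :=
  (Icc 1 ⌊Real.exp (Y / 2 + 1 / 10)⌋₊).filter (fun N : ℕ => Y / 2 - 1 / 10 ≤ Real.log N ∧
    ¬ ∀ α β : ℝ, 0 ≤ α → β ≤ 1 → 1 / Y ^ A ≤ β - α →
      c * ((β - α) * (N / Real.log N ^ 2)) ≤ ((KS r ζ N α β).card : ℝ))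

theorem blk (hB : S_BVG) (hP : S_POOR) (hS : S_SIVE) : ∃ (r : ℕ) (c ζ : ℝ), 0 < c ∧ 0 < ζ ∧
    ∀ A : ℕ, ∀ᶠ Y : ℝ in atTop, ((Ex r c ζ A Y).card : ℝ) ≤ Real.exp (Y / 2) / Y ^ A := by
  classical
  obtain ⟨c₁, η, Y₁, hc₁, hη, HP⟩ := hP
  obtain ⟨ζ, hζ, HS⟩ := hS
  obtain ⟨c₂, Y₂, hc₂, HS⟩ := HS c₁ hc₁
  refine ⟨⌈3 / ζ⌉₊, c₂ / 40, ζ, by positivity, hζ, fun A => ?_⟩
  obtain ⟨Y₃, HB⟩ := hB (2 * A + 6)
  filter_upwards [eventually_ge_atTop Y₁, eventually_ge_atTop Y₂, eventually_ge_atTop Y₃,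
    eventually_ge_atTop (20 : ℝ), ev_pow_exp 1 0.004 (A + 2) (by norm_num), ev_pow_exp 1 η (A + 2) hη,
    ev_pow_exp 8 (2 / 5) A (by norm_num), ev_pow_exp 10 (0.194) A (by norm_num)]
    with Y hY1 hY2 hY3 hY20 e1 e2 e3 e4
  have hY0 : 0 < Y := by linarith
  obtain ⟨κ, hκ⟩ : ∃ κ, κ = Real.exp (-(Y / 2)) / Y ^ (A + 2) := ⟨_, rfl⟩
  have hκ0 : 0 < κ := by rw [hκ]; positivity
  have hYP : (1 : ℝ) ≤ Y ^ (A + 2) := one_le_pow₀ (by linarith)
  have k1 : Real.exp (-(0.504 * Y)) ≤ κ := by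
    rw [hκ, le_div_iff₀ (by positivity)]
    calc Real.exp (-(0.504 * Y)) * Y ^ (A + 2) ≤ Real.exp (-(0.504 * Y)) * Real.exp (0.004 * Y) :=
          mul_le_mul_of_nonneg_left (by linarith) (Real.exp_pos _).le
      _ = Real.exp (-(Y / 2)) := by rw [← Real.exp_add]; congr 1; ring
  have k2 : Real.exp (-((1 / 2 + η) * Y)) ≤ κ := by
    rw [hκ, le_div_iff₀ (by positivity)]
    calc Real.exp (-((1 / 2 + η) * Y)) * Y ^ (A + 2) ≤ Real.exp (-((1 / 2 + η) * Y)) * Real.exp (η * Y) :=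
          mul_le_mul_of_nonneg_left (by linarith) (Real.exp_pos _).le
      _ = Real.exp (-(Y / 2)) := by rw [← Real.exp_add]; congr 1; ring
  have k3 : κ ≤ Real.exp (-(Y / 2)) := by
    rw [hκ]
    exact div_le_self (Real.exp_pos _).le hYP
  have k4 : κ ≤ Real.exp (-(Y / 4)) := k3.trans (Real.exp_le_exp.2 (by linarith))
  have k5 : κ ≤ 1 / 100 := by
    refine k3.trans ?_
    have h1 : Real.exp (-(Y / 2)) ≤ Real.exp (-10) := Real.exp_le_exp.2 (by linarith)
    have h2 : Real.exp (-10 : ℝ) ≤ 1 / 100 := by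
      rw [Real.exp_neg, inv_eq_one_div]
      apply one_div_le_one_div_of_le (by norm_num)
      have := Real.quadratic_le_exp_of_nonneg (show (0 : ℝ) ≤ 10 by norm_num)
      have h3 : Real.exp (10 : ℝ) = Real.exp 5 ^ 2 := by
        rw [← Real.exp_nat_mul]
        norm_num
      have h4 := Real.quadratic_le_exp_of_nonneg (show (0 : ℝ) ≤ 5 by norm_num)
      rw [h3]
      nlinarith
    exact h1.trans h2
  obtain ⟨t, ht0, htκ, HB'⟩ := HB Y hY3 κ k1 k4
  have hBd := Bd_card (c := c₁) (t := t) hY0 hκ0 (HP Y hY1 κ t k2 k4 ht0 htκ) HB'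
  have hSV : SieveOK ζ c₁ c₂ Y κ t := by
    intro u E g1 g2 g3 g4 g5 g6 g7
    have := HS Y hY2 κ u E k1 k4 g1 g2 g3 g4 g5 g6 g7
    unfold SW
    exact this
  -- the exceptional `N` are heavy
  have hheavy : ∀ N ∈ Ex ⌈3 / ζ⌉₊ (c₂ / 40) ζ A Y, Y ^ 2 / 5 ≤
      (((Bd Y κ c₁ t).filter (fun j : ℕ => Nj (Y - 1 / 4 + t + j * κ) = N)).card : ℝ) := by
    intro N hN
    unfold Ex at hN
    rw [mem_filter, mem_Icc] at hN
    obtain ⟨⟨hN1, hN2⟩, hN3, hN4⟩ := hN
    by_contra hlt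
    apply hN4
    intro α β hα hβ hαβ
    have hN0 : (0 : ℝ) < N := by exact_mod_cast hN1
    have hNu : Real.log N ≤ Y / 2 + 1 / 10 := by
      rw [Real.log_le_iff_le_exp hN0]
      exact (Nat.cast_le.2 hN2).trans (Nat.floor_le (Real.exp_pos _).le)
    have hNl : Real.exp (2 / 5 * Y) ≤ N := by
      rw [← Real.le_log_iff_exp_le hN0]
      linarith
    have hNl' : Real.exp (2 / 5 * Y) ≥ 100 := by
      have h1 : Real.exp (8 : ℝ) ≤ Real.exp (2 / 5 * Y) := Real.exp_le_exp.2 (by linarith)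
      have h3 : Real.exp (8 : ℝ) = Real.exp 4 ^ 2 := by
        rw [← Real.exp_nat_mul]
        norm_num
      have h4 := Real.quadratic_le_exp_of_nonneg (show (0 : ℝ) ≤ 4 by norm_num)
      nlinarith
    have hN100 : 100 ≤ N := by
      have : (100 : ℝ) ≤ N := by linarith
      exact_mod_cast this
    have hYA0 : 0 < Y ^ A := by positivity
    exact light (by linarith) hκ0 hκ ht0 htκ k5 hζ (Nat.le_ceil _) hc₂ hSV hN3 hNu hN100 hα hβ hαβ
      (by linarith) (not_le.1 hlt).le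
  have hsum : ((Ex ⌈3 / ζ⌉₊ (c₂ / 40) ζ A Y).card : ℝ) * (Y ^ 2 / 5) ≤ ((Bd Y κ c₁ t).card : ℝ) := by
    have h1 : ((Ex ⌈3 / ζ⌉₊ (c₂ / 40) ζ A Y).card : ℝ) * (Y ^ 2 / 5) ≤
        ∑ N ∈ Ex ⌈3 / ζ⌉₊ (c₂ / 40) ζ A Y,
          (((Bd Y κ c₁ t).filter (fun j : ℕ => Nj (Y - 1 / 4 + t + j * κ) = N)).card : ℝ) := by
      rw [← nsmul_eq_mul]
      exact card_nsmul_le_sum _ _ _ hheavy
    refine h1.trans ?_
    rw [← Nat.cast_sum, Nat.cast_le]
    rw [← card_biUnion]
    · apply card_le_card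
      intro j hj
      rw [mem_biUnion] at hj
      obtain ⟨N, _, hj⟩ := hj
      exact (mem_filter.1 hj).1
    · intro x _ y _ hxy
      rw [Function.onFun, disjoint_left]
      intro j hj hj'
      exact hxy ((mem_filter.1 hj).2.symm.trans (mem_filter.1 hj').2)
  have hfin : ((Ex ⌈3 / ζ⌉₊ (c₂ / 40) ζ A Y).card : ℝ) * (Y ^ 2 / 5) ≤
      Real.exp (Y / 2) / Y ^ A * (Y ^ 2 / 5) := by
    refine (hsum.trans hBd).trans ?_
    have h1 : Y ^ 4 / (κ * Y ^ (2 * A + 6)) = Real.exp (Y / 2) / Y ^ A := by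
      rw [hκ, Real.exp_neg]
      have h2 : Y ^ (2 * A + 6) = Y ^ A * Y ^ (A + 2) * Y ^ 4 := by ring
      rw [h2]
      field_simp
    rw [h1]
    have h3 : Real.exp (0.306 * Y) ≤ Real.exp (Y / 2) / Y ^ A := by
      rw [le_div_iff₀ (by positivity)]
      have hYA0 : 0 < Y ^ A := by positivity
      calc Real.exp (0.306 * Y) * Y ^ A ≤ Real.exp (0.306 * Y) * Real.exp (0.194 * Y) :=
            mul_le_mul_of_nonneg_left (by linarith) (Real.exp_pos _).le
        _ = Real.exp (Y / 2) := by rw [← Real.exp_add]; congr 1; ring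
    have h4 : (2 : ℝ) ≤ Y ^ 2 / 5 := by nlinarith
    have h5 : 0 < Real.exp (Y / 2) / Y ^ A := by positivity
    nlinarith
  exact le_of_mul_le_mul_right hfin (by positivity)

theorem s_FIN (hB : S_BVG) (hP : S_POOR) (hS : S_SIVE) : S_FIN := by
  classical
  obtain ⟨r, c, ζ, hc, hζ, H⟩ := blk hB hP hS
  refine ⟨r, c, ζ, hc, hζ, fun A => ?_⟩
  obtain ⟨Y₀, HY⟩ := eventually_atTop.1 (H (A + 3))
  have hlog : Tendsto (fun X : ℕ => Real.log (X : ℝ)) atTop atTop :=
    Real.tendsto_log_atTop.comp tendsto_natCast_atTop_atTop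
  have ev1 := hlog.eventually (eventually_ge_atTop (max Y₀ 10 + 1))
  have ev2 := hlog.eventually (eventually_ge_atTop ((2 : ℝ) ^ (A + 3) * 16))
  have ev3 := hlog.eventually (ev_pow_exp 2 (1 / 2) A (by norm_num))
  rw [← Filter.eventually_atTop]
  filter_upwards [ev1, ev2, ev3, eventually_ge_atTop 2] with X h1 h2 h3 hX2
  obtain ⟨L, hL⟩ : ∃ L, L = Real.log (X : ℝ) := ⟨_, rfl⟩
  rw [← hL] at h1 h2 h3 ⊢
  have hX0 : (0 : ℝ) < X := by exact_mod_cast (by omega : 0 < X)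
  have hL10 : 11 ≤ L := by
    have := le_max_right Y₀ 10
    linarith
  have hLY : Y₀ + 1 ≤ L := by
    have := le_max_left Y₀ 10
    linarith
  have hL0 : 0 < L := by linarith
  have hexpL : Real.exp L = X := by rw [hL, Real.exp_log hX0]
  -- the blocks
  set Yb : ℕ → ℝ := fun i => 2 * L - 2 * i / 5 with hYb
  set I : ℕ := ⌊5 * L / 2 + 1⌋₊ with hI
  set S := (Icc 2 X).filter (fun N : ℕ => ¬ ∀ α β : ℝ, 0 ≤ α → β ≤ 1 → 1 / L ^ A ≤ β - α →
    c * ((β - α) * (N / Real.log N ^ 2)) ≤ ((KS r ζ N α β).card : ℝ)) with hS'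
  have hIL : (I : ℝ) ≤ 5 * L / 2 + 1 := Nat.floor_le (by positivity)
  have hcov : S ⊆ Icc 1 ⌊Real.exp (L / 2)⌋₊ ∪ (range (I + 1)).biUnion (fun i => Ex r c ζ (A + 3) (Yb i)) := by
    intro N hN
    rw [hS', mem_filter, mem_Icc] at hN
    obtain ⟨⟨hN1, hN2⟩, hN3⟩ := hN
    rw [mem_union]
    have hN0 : (0 : ℝ) < N := by exact_mod_cast (by omega : 0 < N)
    rcases le_or_gt (N : ℝ) (Real.exp (L / 2)) with hs | hs
    · left
      rw [mem_Icc]
      exact ⟨by omega, Nat.le_floor hs⟩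
    · right
      rw [mem_biUnion]
      have hlN : L / 2 < Real.log N := (Real.lt_log_iff_exp_lt hN0).2 hs
      have hlN2 : Real.log N ≤ L := by
        rw [hL]
        exact Real.log_le_log hN0 (by exact_mod_cast hN2)
      obtain ⟨i, hi⟩ : ∃ i : ℕ, i = ⌊5 * (L - Real.log N) + 1 / 2⌋₊ := ⟨_, rfl⟩
      have hi1 : (i : ℝ) ≤ 5 * (L - Real.log N) + 1 / 2 := by
        rw [hi]
        exact Nat.floor_le (by linarith)
      have hi2 : 5 * (L - Real.log N) + 1 / 2 < i + 1 := by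
        rw [hi]
        exact Nat.lt_floor_add_one _
      refine ⟨i, ?_, ?_⟩
      · rw [mem_range]
        have h7 : i ≤ I := by
          rw [hI]
          apply Nat.le_floor
          linarith
        omega
      · have hb1 : (Yb i) / 2 - 1 / 10 ≤ Real.log N := by
          simp only [hYb]
          linarith
        have hb2 : Real.log N ≤ (Yb i) / 2 + 1 / 10 := by
          simp only [hYb]
          linarith
        unfold Ex
        rw [mem_filter, mem_Icc]
        refine ⟨⟨by omega, ?_⟩, hb1, ?_⟩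
        · apply Nat.le_floor
          rw [← Real.log_le_iff_le_exp hN0]
          exact hb2
        · intro hall
          apply hN3
          intro α β hα hβ hαβ
          apply hall α β hα hβ
          refine le_trans ?_ hαβ
          have h5 : L / 2 ≤ Yb i := by linarith
          have h6 : (L / 2) ^ (A + 3) ≤ (Yb i) ^ (A + 3) := pow_le_pow_left₀ (by linarith) h5 _
          apply one_div_le_one_div_of_le (by positivity)
          refine le_trans ?_ h6
          rw [div_pow, le_div_iff₀ (by positivity)]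
          have h7 : L ^ (A + 3) = L ^ A * L ^ 3 := by ring
          rw [h7]
          apply mul_le_mul_of_nonneg_left _ (by positivity)
          have h8 : L ≤ L ^ 3 := by
            calc L = L ^ 1 := (pow_one L).symm
              _ ≤ L ^ 3 := pow_le_pow_right₀ (by linarith) (by norm_num)
          have h9 : (0 : ℝ) < 2 ^ (A + 3) := by positivity
          linarith
  have hbl : ∀ i ∈ range (I + 1), ((Ex r c ζ (A + 3) (Yb i)).card : ℝ) ≤ X * 2 ^ (A + 3) / L ^ (A + 3) := by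
    intro i hi
    rw [mem_range] at hi
    have hi' : (i : ℝ) ≤ I := by exact_mod_cast (by omega : i ≤ I)
    have h5 : L - 1 ≤ Yb i := by
      simp only [hYb]
      linarith
    refine (HY (Yb i) (by linarith)).trans ?_
    have h6 : Real.exp (Yb i / 2) ≤ X := by
      rw [← hexpL]
      apply Real.exp_le_exp.2
      simp only [hYb]
      have : (0 : ℝ) ≤ i := Nat.cast_nonneg _
      linarith
    have h7 : (L / 2) ^ (A + 3) ≤ Yb i ^ (A + 3) := pow_le_pow_left₀ (by linarith) (by linarith) _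
    calc Real.exp (Yb i / 2) / Yb i ^ (A + 3) ≤ X / (L / 2) ^ (A + 3) := by
          apply div_le_div₀ hX0.le h6 (by positivity) h7
      _ = X * 2 ^ (A + 3) / L ^ (A + 3) := by
          rw [div_pow]
          field_simp
  have hc1 := (card_le_card hcov).trans ((card_union_le _ _).trans (Nat.add_le_add_left card_biUnion_le _))
  have hc2 : (S.card : ℝ) ≤ (⌊Real.exp (L / 2)⌋₊ : ℝ) +
      ∑ i ∈ range (I + 1), ((Ex r c ζ (A + 3) (Yb i)).card : ℝ) := by
    rw [Nat.card_Icc, Nat.add_sub_cancel] at hc1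
    exact_mod_cast hc1
  have hc3 : ∑ i ∈ range (I + 1), ((Ex r c ζ (A + 3) (Yb i)).card : ℝ) ≤
      (I + 1) * (X * 2 ^ (A + 3) / L ^ (A + 3)) := by
    have := sum_le_card_nsmul _ _ _ hbl
    rw [card_range, nsmul_eq_mul] at this
    push_cast at this
    exact this
  have hc4 : (⌊Real.exp (L / 2)⌋₊ : ℝ) ≤ X / (2 * L ^ A) := by
    refine (Nat.floor_le (Real.exp_pos _).le).trans ?_
    rw [le_div_iff₀ (by positivity)]
    have h5 : Real.exp (L / 2) * Real.exp (1 / 2 * L) = X := by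
      rw [← Real.exp_add, ← hexpL]
      congr 1
      ring
    rw [← h5]
    exact mul_le_mul_of_nonneg_left h3 (Real.exp_pos _).le
  have hc5 : ((I : ℝ) + 1) * (X * 2 ^ (A + 3) / L ^ (A + 3)) ≤ X / (2 * L ^ A) := by
    have h5 : (I : ℝ) + 1 ≤ 4 * L := by linarith
    have h6 : 8 * 2 ^ (A + 3) * L ≤ L ^ 3 := by
      have h7 : 8 * 2 ^ (A + 3) ≤ L := by
        have : (0 : ℝ) < 2 ^ (A + 3) := by positivity
        linarith
      have h8 : L ≤ L ^ 2 := by nlinarith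
      calc 8 * 2 ^ (A + 3) * L ≤ L * L := mul_le_mul_of_nonneg_right h7 hL0.le
        _ = L ^ 2 * 1 := by ring
        _ ≤ L ^ 2 * L := mul_le_mul_of_nonneg_left (by linarith) (by positivity)
        _ = L ^ 3 := by ring
    calc ((I : ℝ) + 1) * (X * 2 ^ (A + 3) / L ^ (A + 3))
        ≤ (4 * L) * (X * 2 ^ (A + 3) / L ^ (A + 3)) :=
          mul_le_mul_of_nonneg_right h5 (by positivity)
      _ = X * (8 * 2 ^ (A + 3) * L) / (2 * L ^ (A + 3)) := by
          field_simp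
          ring
      _ ≤ X * L ^ 3 / (2 * L ^ (A + 3)) := by
          apply div_le_div_of_nonneg_right _ (by positivity)
          exact mul_le_mul_of_nonneg_left h6 hX0.le
      _ = X / (2 * L ^ A) := by
          rw [pow_add]
          field_simp
  have hend : X / (2 * L ^ A) + X / (2 * L ^ A) = X / L ^ A := by
    field_simp
    ring
  linarith

end Pool.Agent.L7h88.BW
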