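import Mathlib
import Pool.Agent.L7h88.BW.All

/-!
# MP_e94e4b_nt: a prime and an almost prime with the prescribed sum, for almost all `N`

There are an integer `r` and positive constants `c`, `δ` such that for every `A` and all large `X`, all but at most
`X / (log X) ^ A` of the `N ≤ X` have the following property: for EVERY window `[α, β]` in `[0, 1]` of length
`≥ (log X) ^ (-A)` there are at least `c (β - α) N / (log N) ^ 2` integers `k` in `[2 α N, 2 β N]`, `2 ≤ k ≤ 2 N`,
such that `N ^ 2 + k + 1` is a prime and `(N + 1) ^ 2 - k` has at most `r` prime factors (with multiplicity), all of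
them larger than `N ^ δ`.

The starting result `PrimeAlmostPrime` has this for a positive proportion of the `N` (and one window). Since fewer
than `X / (log X) ^ A` integers are lost, `N` may be restricted to any set with more than `X / (log X) ^ A` elements
up to `X`, for instance to the primes.

Proof (project BW; parts by helper18, helper23, helper26, helper47, helper50, helper76 and helper88).

* `Pool.Agent.L7h88.BW.bvg`: a theorem of Bombieri-Vinogradov type for ALMOST ALL short windows. For windows
  `e ^ u < p ≤ e ^ (u + κ)` with `κ ≥ x ^ (-0.504)` (shorter than the square root of `x = e ^ Y`) and all moduli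
  `q ≤ x ^ (1 / 100)`, the discrepancies of the primes of the window in the residue classes modulo `q` have a sum
  over `q` which is smaller than the main term by any power of `log x`, for all `u` outside a set of measure
  `(log x) ^ (-A)`. The proof uses a hybrid large sieve for characters modulo `q` and integer frequencies, Heath-Brown's
  identity, a decomposition into bilinear sums with large values of Dirichlet polynomials, and for the characters
  of small conductor the zero-free region of Vinogradov-Korobov type for `L(s, χ)`, which is proved from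
  Vinogradov's mean value theorem.
* The number of the primes of `(N ^ 2, (N + 1) ^ 2)`, and of its parts, has the right order for almost all `N`
  (`Pool.Agent.Q278.KT`, starting files).
* The fundamental lemma of the sieve for `(N + 1) ^ 2 - k`, `N ^ 2 + k + 1` prime.
-/

set_option autoImplicit false

namespace Pool.Agent.L7h88.BW.Res

open Finset

open Classical in
/-- The `k`, `2 ≤ k ≤ 2 N`, in the window `[2 α N, 2 β N]` such that `N ^ 2 + k + 1` is a prime and `(N + 1) ^ 2 - k`
has at most `r` prime factors, counted with multiplicity, all of them larger than `N ^ δ`. -/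
noncomputable def pairs (r : ℕ) (δ : ℝ) (N : ℕ) (α β : ℝ) : Finset ℕ :=
  (Icc 2 (2 * N)).filter (fun k : ℕ => 2 * α * N ≤ k ∧ (k : ℝ) ≤ 2 * β * N ∧ (N ^ 2 + k + 1).Prime ∧
    ((N + 1) ^ 2 - k).primeFactorsList.length ≤ r ∧
      ∀ p : ℕ, p.Prime → p ∣ (N + 1) ^ 2 - k → (N : ℝ) ^ δ < p)

/-- The number of the `k` in every window `[α, β] ⊆ [0, 1]` of length at least `w` is at least
`c (β - α) N / (log N) ^ 2`. -/
def Good (r : ℕ) (δ c w : ℝ) (N : ℕ) : Prop := ∀ α β : ℝ, 0 ≤ α → β ≤ 1 → w ≤ β - α →
  c * ((β - α) * (N / Real.log N ^ 2)) ≤ ((pairs r δ N α β).card : ℝ)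

open Classical in
/-- **Almost all `N`.** -/
theorem result : ∃ (r : ℕ) (c δ : ℝ), 0 < c ∧ 0 < δ ∧ ∀ A : ℕ, ∃ X₀ : ℕ, ∀ X : ℕ, X₀ ≤ X →
    (((Icc 2 X).filter (fun N : ℕ => ¬ Good r δ c (1 / Real.log X ^ A) N)).card : ℝ) ≤
      X / Real.log X ^ A :=
  Pool.Agent.L7h88.BW.fin

end Pool.Agent.L7h88.BW.Res
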